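import Pool.Agent.U896.SF.StepS
import Pool.Agent.Y929.SY.Glob

/-!
# Sets contained in submanifolds of codimension two, in charts
-/

set_option autoImplicit false

open Set Filter Topology MeasureTheory
open scoped Manifold ContDiff

noncomputable section

namespace Pool.Agent.U896.SF

open Pool.Agent.Y501.SY
open Pool.Agent.Y455.SY (A B AB BA A_surj)

section

variable {d : ℕ} {X : Type} [TopologicalSpace X] [ChartedSpace (E d) X] [IsManifold (𝓡 d) ∞ X]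

theorem fd_symm {z : X} {p : E d} (hp : p ∈ (chartAt (E d) z).target) {a : X → ℝ}
    {N : Set X} (hN : IsOpen N) (hpN : (chartAt (E d) z).symm p ∈ N)
    (ha : ContMDiffOn (𝓡 d) 𝓘(ℝ, ℝ) ∞ a N) :
    HasFDerivAt (fun q => a ((chartAt (E d) z).symm q))
      ((mfderiv (𝓡 d) 𝓘(ℝ, ℝ) a ((chartAt (E d) z).symm p) : E d →L[ℝ] ℝ).comp
        (A (d := d) (X := X) z p)) p := by
  have h1 : MDifferentiableAt (𝓡 d) 𝓘(ℝ, ℝ) a ((chartAt (E d) z).symm p) :=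
    ((ha _ hpN).contMDiffAt (hN.mem_nhds hpN)).mdifferentiableAt (by simp)
  have h2 : MDifferentiableAt (𝓡 d) (𝓡 d) (chartAt (E d) z).symm p :=
    mdifferentiableAt_atlas_symm (I := 𝓡 d) (chart_mem_atlas (E d) z) hp
  have h3 := h1.hasMFDerivAt.comp p h2.hasMFDerivAt
  exact h3.hasFDerivAt

theorem inSub_of {J : End d X} {K : Set X} {z : X} {p : E d}
    (hp : p ∈ (chartAt (E d) z).target)
    {N : Set X} {a b : X → ℝ} (hN : IsOpen N) (hpN : (chartAt (E d) z).symm p ∈ N)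
    (ha : ContMDiffOn (𝓡 d) 𝓘(ℝ, ℝ) ∞ a N) (hb : ContMDiffOn (𝓡 d) 𝓘(ℝ, ℝ) ∞ b N)
    (h0 : ∀ y ∈ N, y ∈ K → a y = 0 ∧ b y = 0)
    (hsurj : ∀ s t : ℝ, ∃ v : TangentSpace (𝓡 d) ((chartAt (E d) z).symm p),
      (mfderiv (𝓡 d) 𝓘(ℝ, ℝ) a ((chartAt (E d) z).symm p) v : ℝ) = s ∧
      (mfderiv (𝓡 d) 𝓘(ℝ, ℝ) b ((chartAt (E d) z).symm p) v : ℝ) = t)
    (hline : ∃ v : TangentSpace (𝓡 d) ((chartAt (E d) z).symm p), v ≠ 0 ∧
      (mfderiv (𝓡 d) 𝓘(ℝ, ℝ) a ((chartAt (E d) z).symm p) v : ℝ) = 0 ∧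
      (mfderiv (𝓡 d) 𝓘(ℝ, ℝ) b ((chartAt (E d) z).symm p) v : ℝ) = 0 ∧
      (mfderiv (𝓡 d) 𝓘(ℝ, ℝ) a ((chartAt (E d) z).symm p)
        (J ((chartAt (E d) z).symm p) v) : ℝ) = 0 ∧
      (mfderiv (𝓡 d) 𝓘(ℝ, ℝ) b ((chartAt (E d) z).symm p)
        (J ((chartAt (E d) z).symm p) v) : ℝ) = 0) :
    InSub 2 (inChart J z) ((chartAt (E d) z).target ∩ (chartAt (E d) z).symm ⁻¹' K) p := by
  have hfa := fd_symm hp hN hpN ha
  have hfb := fd_symm hp hN hpN hb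
  obtain ⟨g, hg⟩ : ∃ g : E d → (Fin 2 → ℝ), g = fun q => ![a ((chartAt (E d) z).symm q),
    b ((chartAt (E d) z).symm q)] := ⟨_, rfl⟩
  have hfd : ∀ w : E d, fderiv ℝ g p w =
      ![(mfderiv (𝓡 d) 𝓘(ℝ, ℝ) a ((chartAt (E d) z).symm p) (A (d := d) (X := X) z p w) : ℝ),
        (mfderiv (𝓡 d) 𝓘(ℝ, ℝ) b ((chartAt (E d) z).symm p) (A (d := d) (X := X) z p w) : ℝ)] := by
    intro w
    have h1 : HasFDerivAt g (ContinuousLinearMap.pi
        ![(mfderiv (𝓡 d) 𝓘(ℝ, ℝ) a ((chartAt (E d) z).symm p) : E d →L[ℝ] ℝ).comp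
          (A (d := d) (X := X) z p),
          (mfderiv (𝓡 d) 𝓘(ℝ, ℝ) b ((chartAt (E d) z).symm p) : E d →L[ℝ] ℝ).comp
          (A (d := d) (X := X) z p)]) p := by
      rw [hasFDerivAt_pi']
      intro i
      fin_cases i
      · rw [hg]
        exact hfa
      · rw [hg]
        exact hfb
    rw [h1.fderiv]
    funext i
    fin_cases i <;> rfl
  have hNo : IsOpen ((chartAt (E d) z).target ∩ (chartAt (E d) z).symm ⁻¹' N) :=
    (chartAt (E d) z).isOpen_inter_preimage_symm hN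
  obtain ⟨v, hv, h1, h2, h3, h4⟩ := hline
  obtain ⟨v', rfl⟩ := A_surj z hp v
  refine ⟨(chartAt (E d) z).target ∩ (chartAt (E d) z).symm ⁻¹' N, g,
    v', hNo, ⟨hp, hpN⟩, ?_, ?_, ?_, ?_, ?_, ?_⟩
  · have hs : ∀ f : X → ℝ, ContMDiffOn (𝓡 d) 𝓘(ℝ, ℝ) ∞ f N →
        ContDiffOn ℝ ∞ (fun q => f ((chartAt (E d) z).symm q))
          ((chartAt (E d) z).target ∩ (chartAt (E d) z).symm ⁻¹' N) := by
      intro f hf
      rw [← contMDiffOn_iff_contDiffOn]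
      exact hf.comp (contMDiffOn_chart_symm.mono inter_subset_left) fun q hq => hq.2
    rw [contDiffOn_pi]
    intro i
    fin_cases i
    · rw [hg]
      exact hs a ha
    · rw [hg]
      exact hs b hb
  · intro y
    obtain ⟨u, hu1, hu2⟩ := hsurj (y 0) (y 1)
    obtain ⟨u', rfl⟩ := A_surj z hp u
    refine ⟨u', ?_⟩
    rw [hfd]
    funext i
    fin_cases i
    · exact hu1
    · exact hu2
  · intro x hx hxk
    obtain ⟨e1, e2⟩ := h0 _ hx.2 hxk.2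
    rw [hg]
    funext i
    fin_cases i
    · exact e1
    · exact e2
  · intro h
    apply hv
    rw [h]
    exact map_zero _
  · rw [hfd]
    funext i
    fin_cases i
    · exact h1
    · exact h2
  · have h5 : A (d := d) (X := X) z p (inChart J z p v') =
        J ((chartAt (E d) z).symm p) (A (d := d) (X := X) z p v') := AB z hp _
    rw [hfd, h5]
    funext i
    fin_cases i
    · exact h3
    · exact h4

/-- in dimension at least five a complex line always exists -/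
theorem line_of_dim (hd : 5 ≤ d) (J : E d →L[ℝ] E d) (α β : E d →L[ℝ] ℝ) :
    ∃ v : E d, v ≠ 0 ∧ α v = 0 ∧ β v = 0 ∧ α (J v) = 0 ∧ β (J v) = 0 := by
  obtain ⟨L, hL⟩ : ∃ L : E d →ₗ[ℝ] (Fin 4 → ℝ), ∀ v i, L v i = ![α v, β v, α (J v), β (J v)] i := by
    refine ⟨LinearMap.pi ![(α : E d →ₗ[ℝ] ℝ), (β : E d →ₗ[ℝ] ℝ),
      ((α.comp J : E d →L[ℝ] ℝ) : E d →ₗ[ℝ] ℝ), ((β.comp J : E d →L[ℝ] ℝ) : E d →ₗ[ℝ] ℝ)], ?_⟩
    intro v i
    fin_cases i <;> rfl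
  have h1 : LinearMap.ker L ≠ ⊥ := by
    apply LinearMap.ker_ne_bot_of_finrank_lt
    rw [Module.finrank_fin_fun, finrank_euclideanSpace_fin]
    omega
  obtain ⟨v, hv, hv0⟩ := (Submodule.ne_bot_iff _).1 h1
  have h2 : ∀ i, ![α v, β v, α (J v), β (J v)] i = 0 := by
    intro i
    rw [← hL v i, LinearMap.mem_ker.1 hv]
    rfl
  exact ⟨v, hv0, h2 0, h2 1, h2 2, h2 3⟩

end

end Pool.Agent.U896.SF
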