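import Pool.Agent.Y501.SY.PubT

/-!
Closed sets contained in submanifolds of codimension two: the definitions used in the statement.
-/

set_option autoImplicit false

open Set Filter Topology MeasureTheory
open scoped Manifold ContDiff

noncomputable section

namespace Pool.Agent.U896.SFP

open Pool.Agent.Y501.SYP

variable {V : Type} [NormedAddCommGroup V] [NormedSpace ℝ V]
  {X : Type} [TopologicalSpace X] [ChartedSpace V X]

/-- Near `x`, the set `K` is contained in the submanifold of codimension two defined by the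
equations `a = b = 0`: the functions `a`, `b` are smooth on an open neighbourhood `N` of `x`, they
vanish on `K ∩ N`, and their differentials at `x` are linearly independent. -/
def CutOut (K : Set X) (x : X) (a b : X → ℝ) : Prop :=
  (∃ N : Set X, IsOpen N ∧ x ∈ N ∧ ContMDiffOn 𝓘(ℝ, V) 𝓘(ℝ, ℝ) ∞ a N ∧
    ContMDiffOn 𝓘(ℝ, V) 𝓘(ℝ, ℝ) ∞ b N ∧ ∀ y ∈ N, y ∈ K → a y = 0 ∧ b y = 0) ∧
  ∀ s t : ℝ, ∃ v : TangentSpace 𝓘(ℝ, V) x, dd a x v = s ∧ dd b x v = t

/-- The tangent space at `x` of the submanifold defined by the equations `a = b = 0` contains a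
`J`-complex line. -/
def HasLine (J : End V X) (x : X) (a b : X → ℝ) : Prop :=
  ∃ v : TangentSpace 𝓘(ℝ, V) x, v ≠ 0 ∧ dd a x v = 0 ∧ dd b x v = 0 ∧
    dd a x (J x v) = 0 ∧ dd b x (J x v) = 0

end Pool.Agent.U896.SFP
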