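import Pool.Agent.U896.SF.MainS
import Pool.Agent.U896.SF.BridS
import Pool.Agent.U896.SF.PubS
import Pool.Agent.U896.SE.FinalE

/-!
# Bounded eccentricity in codimension two: the main theorem, with the public definitions
-/

set_option autoImplicit false

open Set Filter Topology MeasureTheory
open scoped Manifold ContDiff

noncomputable section

namespace Pool.Agent.U896.SFP

open Pool.Agent.Y501
open Pool.Agent.Y501.SYP
open Pool.Agent.U896.SEP

section

variable {d : ℕ} {X : Type} [TopologicalSpace X] [ChartedSpace (ES d) X]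

attribute [local instance] cs mf

theorem subK_of [IsManifold 𝓘(ℝ, ES d) ∞ X] (J : End (ES d) X) (K : Set X)
    (hH : ∀ x ∈ K, ∃ a b : X → ℝ, CutOut (V := ES d) K x a b ∧ (6 ≤ d ∨ HasLine J x a b)) :
    SF.SubK (d := d) (X := X) J K := by
  intro z p hp hpK
  obtain ⟨a, b, ⟨⟨N, hN, hxN, ha, hb, h0⟩, hs⟩, hl⟩ := hH _ hpK
  refine SF.inSub_of (d := d) (X := X) hp hN hxN ha hb h0 hs ?_
  rcases hl with hl | hl
  · exact SF.line_of_dim (d := d) (by omega) _ _ _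
  · exact hl

theorem removableS [IsManifold 𝓘(ℝ, ES d) ∞ X] [CompactSpace X] [T2Space X] (hd : 0 < d)
    (J : End (ES d) X) (hJ : IsAlmostComplex J) (K : Set X) (hK : IsClosed K)
    (hH : ∀ x ∈ K, ∃ a b : X → ℝ, CutOut (V := ES d) K x a b ∧ (6 ≤ d ∨ HasLine J x a b))
    (σ : Form (ES d) X 2) (hσ : ClosedOff σ K) (hb : ∀ x ∈ K, EccNear σ J K x)
    (hpos : ∀ x, x ∉ K → ∀ v : TangentSpace 𝓘(ℝ, ES d) x, 0 ≤ qd σ J x v)
    (hsmall : ∀ z ∈ Crit σ J K, SmallAll J (connectedComponentIn (Crit σ J K) z) z)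
    (U : Set X) (hU : IsOpen U) (hKU : K ⊆ U) :
    ∃ (α : Form (ES d) X 1) (η w : Form (ES d) X 2), IsSmooth α ∧ IsSmooth η ∧ IsD α η ∧
      IsTamingSymplectic w J ∧ ∀ x, x ∉ U → w x = addF σ η x := by
  obtain ⟨α, η, w, h1, h2, h3, h4, h5, h6, h7⟩ := SF.mainS (d := d) (X := X) hd
    Pool.Agent.Y44.SY.t_IMM Pool.Agent.Y44.SY.t_QB Pool.Agent.Y394.SY.t_SM
    Pool.Agent.Y949.SY.t_PATCH2
    (J := J) (ac_of J hJ) (K := K) hK (subK_of J K hH) (σ := σ)
    (fun V φ hV hφ hp => (hσ V φ ⟨hV, hφ⟩ hp).1)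
    (fun V φ hV hφ hp p hpV => (hσ V φ ⟨hV, hφ⟩ hp).2 p hpV)
    (fun x => by
      by_cases hx : x ∈ K
      · exact hb x hx
      · exact ecc_off hK hσ hpos hx)
    hpos (fun z hz => smallAll_of hJ (hsmall z hz)) hU hKU
  exact ⟨α, η, w, (smooth_iff α).2 h1, (smooth_iff η).2 h2, (isD_iff α η).2 h3,
    symp_of ((smooth_iff w).2 h4) ((closed_iff w).2 h5) h6, h7⟩

end

end Pool.Agent.U896.SFP
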