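import Pool.Agent.U896.SF.Straight
import Pool.Agent.U896.SE.Reg2

/-!
# Bounded eccentricity: cut-off functions near submanifolds
-/

set_option autoImplicit false

open Set Filter Topology MeasureTheory
open scoped Manifold ContDiff

noncomputable section

namespace Pool.Agent.U896.SF

open Pool.Agent.Y501.SY (E)
open Pool.Agent.Y515.SY (Al comp_norm ind_sm)
open Pool.Agent.U896
open Pool.Agent.U896.SE (CapR mul_int)

variable {d : ℕ}

/-- small cut-off functions equal to one near `S` -/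
def CapN (S : Set (E d)) (Φ : E d → Al d 2) : Prop :=
  ∀ δ : ℝ, 0 < δ → ∃ η : E d → ℝ, ContDiff ℝ ∞ η ∧ (∀ x, 0 ≤ η x) ∧ (∀ x, η x ≤ 1) ∧
    (∀ᶠ x in 𝓝ˢ S, η x = 1) ∧ HasCompactSupport η ∧
    ∫ x, η x * ‖Φ x‖ < δ ∧ ∫ x, ‖fderiv ℝ η x‖ * ‖Φ x‖ < δ

theorem capN_union {S T : Set (E d)} {Φ : E d → Al d 2} (hΦ : Integrable Φ) (hS : CapN S Φ)
    (hT : CapN T Φ) : CapN (S ∪ T) Φ := by
  intro δ hδ
  obtain ⟨η, a1, a2, a3, a4, a5, a6, a7⟩ := hS (δ / 2) (by positivity)
  obtain ⟨ζ, b1, b2, b3, b4, b5, b6, b7⟩ := hT (δ / 2) (by positivity)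
  have i1 : Integrable (fun x => η x * ‖Φ x‖) := by
    have := mul_int a1.continuous (B := 1)
      (fun y => by rw [Real.norm_of_nonneg (a2 y)]; exact a3 y) hΦ.norm
    simpa only [smul_eq_mul] using this
  have i2 : Integrable (fun x => ζ x * ‖Φ x‖) := by
    have := mul_int b1.continuous (B := 1)
      (fun y => by rw [Real.norm_of_nonneg (b2 y)]; exact b3 y) hΦ.norm
    simpa only [smul_eq_mul] using this
  have i3 : ∀ θ : E d → ℝ, ContDiff ℝ ∞ θ → HasCompactSupport θ →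
      Integrable (fun x => ‖fderiv ℝ θ x‖ * ‖Φ x‖) := by
    intro θ h1 h2
    obtain ⟨M, hM⟩ : ∃ M, ∀ x, ‖fderiv ℝ θ x‖ ≤ M :=
      (h1.continuous_fderiv (by simp)).bounded_above_of_compact_support (h2.fderiv ℝ)
    have := mul_int (η := fun x => ‖fderiv ℝ θ x‖) (h1.continuous_fderiv (by simp)).norm (B := M)
      (fun y => by rw [norm_norm]; exact hM y) hΦ.norm
    simpa only [smul_eq_mul] using this
  refine ⟨fun x => η x + ζ x - η x * ζ x, (a1.add b1).sub (a1.mul b1), fun x => ?_, fun x => ?_,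
    ?_, ?_, ?_, ?_⟩
  · have h1 := a2 x
    have h2 := a3 x
    have h3 := b2 x
    nlinarith
  · have h1 := a2 x
    have h2 := a3 x
    have h3 := b3 x
    nlinarith
  · rw [nhdsSet_union, Filter.eventually_sup]
    constructor
    · filter_upwards [a4] with x hx
      rw [hx]
      ring
    · filter_upwards [b4] with x hx
      rw [hx]
      ring
  · exact (a5.add b5).sub (a5.mul_right)
  · have h1 : ∫ x, (η x + ζ x - η x * ζ x) * ‖Φ x‖ ≤ ∫ x, (η x * ‖Φ x‖ + ζ x * ‖Φ x‖) := by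
      refine integral_mono_of_nonneg (Eventually.of_forall fun x => ?_) (i1.add i2)
        (Eventually.of_forall fun x => ?_)
      · refine mul_nonneg ?_ (norm_nonneg _)
        have h1 := a2 x
        have h2 := a3 x
        have h3 := b2 x
        nlinarith
      · have h1 := mul_nonneg (mul_nonneg (a2 x) (b2 x)) (norm_nonneg (Φ x))
        change (η x + ζ x - η x * ζ x) * ‖Φ x‖ ≤ η x * ‖Φ x‖ + ζ x * ‖Φ x‖
        linarith
    rw [integral_add i1 i2] at h1
    linarith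
  · have h1 : ∫ x, ‖fderiv ℝ (fun x => η x + ζ x - η x * ζ x) x‖ * ‖Φ x‖ ≤
        ∫ x, (‖fderiv ℝ η x‖ * ‖Φ x‖ + ‖fderiv ℝ ζ x‖ * ‖Φ x‖) := by
      refine integral_mono_of_nonneg (Eventually.of_forall fun x => by positivity)
        ((i3 η a1 a5).add (i3 ζ b1 b5)) (Eventually.of_forall fun x => ?_)
      have e1 : HasFDerivAt η (fderiv ℝ η x) x := ((a1.differentiable (by simp)) x).hasFDerivAt
      have e2 : HasFDerivAt ζ (fderiv ℝ ζ x) x := ((b1.differentiable (by simp)) x).hasFDerivAt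
      have e3 : fderiv ℝ (fun x => η x + ζ x - η x * ζ x) x =
          (1 - ζ x) • fderiv ℝ η x + (1 - η x) • fderiv ℝ ζ x := by
        have e30 : HasFDerivAt (fun x => η x + ζ x - η x * ζ x)
            (fderiv ℝ η x + fderiv ℝ ζ x - (η x • fderiv ℝ ζ x + ζ x • fderiv ℝ η x)) x :=
          (e1.add e2).sub (e1.mul e2)
        rw [e30.fderiv, sub_smul, sub_smul, one_smul, one_smul]
        abel
      have e4 : ‖fderiv ℝ (fun x => η x + ζ x - η x * ζ x) x‖ ≤ ‖fderiv ℝ η x‖ + ‖fderiv ℝ ζ x‖ := by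
        rw [e3]
        refine (norm_add_le _ _).trans ?_
        have n1 := norm_nonneg (fderiv ℝ η x)
        have n2 := norm_nonneg (fderiv ℝ ζ x)
        rw [norm_smul, norm_smul, Real.norm_of_nonneg (by linarith [b3 x] : 0 ≤ 1 - ζ x),
          Real.norm_of_nonneg (by linarith [a3 x] : 0 ≤ 1 - η x)]
        have h2 := mul_le_mul_of_nonneg_right (by linarith [b2 x] : 1 - ζ x ≤ 1) n1
        have h3 := mul_le_mul_of_nonneg_right (by linarith [a2 x] : 1 - η x ≤ 1) n2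
        linarith
      change _ ≤ ‖fderiv ℝ η x‖ * ‖Φ x‖ + ‖fderiv ℝ ζ x‖ * ‖Φ x‖
      rw [← add_mul]
      exact mul_le_mul_of_nonneg_right e4 (norm_nonneg _)
    rw [integral_add (i3 η a1 a5) (i3 ζ b1 b5)] at h1
    linarith

/-- local version -/
theorem capN_local {Φ : E d → Al d 2} (hΦ : Integrable Φ) {N k : Set (E d)}
    {g : E d → (Fin 2 → ℝ)} {p₀ : E d} {r C : ℝ} (hr : 0 < r) (hC : 0 ≤ C) (hN : IsOpen N)
    (hrN : Metric.ball p₀ r ⊆ N) (hg : ContDiffOn ℝ ∞ g N) (hgk : ∀ x ∈ N, x ∈ k → g x = 0)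
    (hmass : ∀ δ : ℝ, 0 < δ →
      ∫ p in Metric.ball p₀ r ∩ {x | ‖g x‖ < δ}, ‖Φ p‖ ≤ C * δ ^ 2) :
    CapN (k ∩ Metric.ball p₀ (r / 4)) Φ := by
  obtain ⟨κ, hκ⟩ : ∃ κ : ContDiffBump p₀, κ.rIn = r / 4 ∧ κ.rOut = r / 2 :=
    ⟨⟨r / 4, r / 2, by positivity, by linarith⟩, rfl, rfl⟩
  obtain ⟨β, hβ⟩ : ∃ β : ContDiffBump (0 : Fin 2 → ℝ), β.rIn = 1 ∧ β.rOut = 2 :=
    ⟨⟨1, 2, by norm_num, by norm_num⟩, rfl, rfl⟩
  have hκd : ContDiff ℝ ∞ κ := κ.contDiff
  have hβd : ContDiff ℝ ∞ β := β.contDiff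
  have hκc : HasCompactSupport κ := κ.hasCompactSupport
  have hβc : HasCompactSupport β := β.hasCompactSupport
  have hκs : tsupport κ = Metric.closedBall p₀ (r / 2) := by rw [κ.tsupport_eq, hκ.2]
  have hβs : tsupport β = Metric.closedBall 0 2 := by rw [β.tsupport_eq, hβ.2]
  obtain ⟨Mκ, hMκ⟩ := (hκd.continuous_fderiv (by simp)).bounded_above_of_compact_support
    (hκc.fderiv ℝ)
  obtain ⟨Mβ, hMβ⟩ := (hβd.continuous_fderiv (by simp)).bounded_above_of_compact_support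
    (hβc.fderiv ℝ)
  have hMκ0 : 0 ≤ Mκ := (norm_nonneg _).trans (hMκ p₀)
  have hMβ0 : 0 ≤ Mβ := (norm_nonneg _).trans (hMβ 0)
  have hcb : Metric.closedBall p₀ (r / 2) ⊆ Metric.ball p₀ r :=
    Metric.closedBall_subset_ball (by linarith)
  obtain ⟨G, hG⟩ := (isCompact_closedBall p₀ (r / 2)).exists_bound_of_continuousOn
    ((hg.continuousOn_fderiv_of_isOpen hN (by simp)).mono (hcb.trans hrN))
  have hG0 : 0 ≤ G := (norm_nonneg _).trans (hG p₀ (Metric.mem_closedBall_self (by positivity)))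
  intro ε hε
  obtain ⟨M, hM⟩ : ∃ M : ℝ, M = Mκ + Mβ * G + 1 := ⟨_, rfl⟩
  have hM0 : 0 < M := by rw [hM]; positivity
  obtain ⟨δ, hδ⟩ : ∃ δ : ℝ, δ = min 1 (ε / (9 * M * C + 9 * C + 1)) := ⟨_, rfl⟩
  have hδ0 : 0 < δ := by rw [hδ]; exact lt_min one_pos (by positivity)
  have hδ1 : δ ≤ 1 := by rw [hδ]; exact min_le_left _ _
  have hδ2 : δ * (9 * M * C + 9 * C + 1) ≤ ε := by
    have h1 : δ ≤ ε / (9 * M * C + 9 * C + 1) := by rw [hδ]; exact min_le_right _ _
    rwa [le_div_iff₀ (by positivity)] at h1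
  obtain ⟨η, hη⟩ : ∃ η : E d → ℝ, η = fun p => κ p * β (δ⁻¹ • g p) := ⟨_, rfl⟩
  have hgat : ∀ p ∈ Metric.ball p₀ r, ContDiffAt ℝ ∞ g p := fun p hp =>
    hg.contDiffAt (hN.mem_nhds (hrN hp))
  have hout : ∀ p, p ∉ Metric.closedBall p₀ (r / 2) → η =ᶠ[𝓝 p] fun _ => 0 := by
    intro p hp
    rw [← hκs] at hp
    filter_upwards [notMem_tsupport_iff_eventuallyEq.1 hp] with q hq
    rw [hη]
    change κ q * _ = 0
    rw [hq]
    exact zero_mul _
  have hηs : ContDiff ℝ ∞ η := by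
    rw [contDiff_iff_contDiffAt]
    intro p
    by_cases hp : p ∈ Metric.closedBall p₀ (r / 2)
    · rw [hη]
      exact hκd.contDiffAt.mul (hβd.contDiffAt.comp p ((hgat p (hcb hp)).const_smul δ⁻¹))
    · exact contDiffAt_const.congr_of_eventuallyEq (hout p hp)
  have h0 : ∀ p, 0 ≤ η p := fun p => by rw [hη]; exact mul_nonneg κ.nonneg β.nonneg
  have h1 : ∀ p, η p ≤ 1 := fun p => by
    rw [hη]
    exact mul_le_one₀ κ.le_one β.nonneg β.le_one
  obtain ⟨S, hS⟩ : ∃ S : Set (E d), S = Metric.ball p₀ r ∩ {x | ‖g x‖ < 3 * δ} := ⟨_, rfl⟩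
  have hSo : IsOpen S := by
    rw [hS]
    exact ContinuousOn.isOpen_inter_preimage ((hg.continuousOn.mono hrN).norm) Metric.isOpen_ball
      isOpen_Iio
  have hzero : ∀ p, p ∉ S → η =ᶠ[𝓝 p] fun _ => 0 := by
    intro p hp
    by_cases hpb : p ∈ Metric.closedBall p₀ (r / 2)
    · have h2 : ¬ ‖g p‖ < 3 * δ := fun h => hp (by rw [hS]; exact ⟨hcb hpb, h⟩)
      rw [not_lt] at h2
      have h3 : δ⁻¹ • g p ∉ tsupport β := by
        rw [hβs, mem_closedBall_zero_iff, norm_smul, norm_inv, Real.norm_of_nonneg hδ0.le,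
          inv_mul_le_iff₀ hδ0]
        intro h4
        linarith
      have h4 : ContinuousAt (fun q => δ⁻¹ • g q) p :=
        (hgat p (hcb hpb)).continuousAt.const_smul δ⁻¹
      filter_upwards [h4.eventually (notMem_tsupport_iff_eventuallyEq.1 h3)] with q hq
      rw [hη]
      change κ q * β (δ⁻¹ • g q) = 0
      rw [hq]
      exact mul_zero _
    · exact hout p hpb
  have hηS : ∀ p, η p ≤ S.indicator (fun _ => 1) p := by
    intro p
    by_cases hp : p ∈ S
    · rw [indicator_of_mem hp]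
      exact h1 p
    · rw [indicator_of_notMem hp, (hzero p hp).self_of_nhds]
  have hdS : ∀ p, ‖fderiv ℝ η p‖ ≤ (M / δ) * S.indicator (fun _ => 1) p := by
    intro p
    by_cases hp : p ∈ S
    · rw [indicator_of_mem hp, mul_one]
      by_cases hpb : p ∈ Metric.closedBall p₀ (r / 2)
      · have e1 : HasFDerivAt κ (fderiv ℝ κ p) p :=
          (hκd.differentiable (by simp) p).hasFDerivAt
        have e2 : HasFDerivAt β (fderiv ℝ β (δ⁻¹ • g p)) (δ⁻¹ • g p) :=
          (hβd.differentiable (by simp) _).hasFDerivAt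
        have e3 : HasFDerivAt g (fderiv ℝ g p) p :=
          ((hgat p (hcb hpb)).differentiableAt (by simp)).hasFDerivAt
        have e4 : HasFDerivAt (fun q => β (δ⁻¹ • g q))
            ((fderiv ℝ β (δ⁻¹ • g p)).comp (δ⁻¹ • fderiv ℝ g p)) p :=
          HasFDerivAt.comp (g := (β : (Fin 2 → ℝ) → ℝ)) (f := fun q => δ⁻¹ • g q) p e2
            (e3.const_smul δ⁻¹)
        have e5 : fderiv ℝ η p = κ p • (fderiv ℝ β (δ⁻¹ • g p)).comp (δ⁻¹ • fderiv ℝ g p) +
            β (δ⁻¹ • g p) • fderiv ℝ κ p := by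
          rw [hη]
          exact (e1.mul e4).fderiv
        have e6 : ‖(fderiv ℝ β (δ⁻¹ • g p)).comp (δ⁻¹ • fderiv ℝ g p)‖ ≤ Mβ * (δ⁻¹ * G) := by
          refine (ContinuousLinearMap.opNorm_comp_le _ _).trans ?_
          refine mul_le_mul (hMβ _) ?_ (norm_nonneg _) hMβ0
          rw [norm_smul, norm_inv, Real.norm_of_nonneg hδ0.le]
          exact mul_le_mul_of_nonneg_left (hG p hpb) (by positivity)
        rw [e5]
        refine (norm_add_le _ _).trans ?_
        rw [norm_smul, norm_smul, Real.norm_of_nonneg κ.nonneg, Real.norm_of_nonneg β.nonneg]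
        have e7 : κ p * ‖(fderiv ℝ β (δ⁻¹ • g p)).comp (δ⁻¹ • fderiv ℝ g p)‖ ≤
            1 * (Mβ * (δ⁻¹ * G)) := mul_le_mul κ.le_one e6 (norm_nonneg _) (by norm_num)
        have e8 : β (δ⁻¹ • g p) * ‖fderiv ℝ κ p‖ ≤ 1 * Mκ :=
          mul_le_mul β.le_one (hMκ p) (norm_nonneg _) (by norm_num)
        have e9 : Mκ ≤ Mκ / δ := by
          rw [le_div_iff₀ hδ0]
          nlinarith
        have e10 : M / δ = Mβ * (δ⁻¹ * G) + Mκ / δ + 1 / δ := by
          rw [hM]
          field_simp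
          ring
        have e11 : 0 < 1 / δ := by positivity
        linarith
      · rw [(hout p hpb).fderiv_eq]
        simp only [fderiv_fun_const, Pi.zero_apply, norm_zero]
        positivity
    · rw [indicator_of_notMem hp, mul_zero, (hzero p hp).fderiv_eq]
      simp
  have hSi : ∫ x, S.indicator (fun _ => (1 : ℝ)) x * ‖Φ x‖ ≤ C * (3 * δ) ^ 2 := by
    have h2 := hmass (3 * δ) (by positivity)
    rw [← hS] at h2
    refine le_trans (le_of_eq ?_) h2
    rw [← integral_indicator hSo.measurableSet]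
    congr 1
    funext x
    by_cases hx : x ∈ S
    · rw [indicator_of_mem hx, indicator_of_mem hx, one_mul]
    · rw [indicator_of_notMem hx, indicator_of_notMem hx, zero_mul]
  have hSint : Integrable (fun x => S.indicator (fun _ => (1 : ℝ)) x * ‖Φ x‖) := by
    have h2 : (fun x => S.indicator (fun _ => (1 : ℝ)) x * ‖Φ x‖) = S.indicator (fun x => ‖Φ x‖) := by
      funext x
      by_cases hx : x ∈ S
      · rw [indicator_of_mem hx, indicator_of_mem hx, one_mul]
      · rw [indicator_of_notMem hx, indicator_of_notMem hx, zero_mul]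
    rw [h2]
    exact hΦ.norm.indicator hSo.measurableSet
  refine ⟨η, hηs, h0, h1, ?_, ?_, ?_, ?_⟩
  · rw [eventually_nhdsSet_iff_forall]
    rintro y ⟨hyk, hyb⟩
    have hyr : y ∈ Metric.ball p₀ r := Metric.ball_subset_ball (by linarith) hyb
    have h2 : ∀ᶠ q in 𝓝 y, q ∈ Metric.ball p₀ (r / 4) := Metric.isOpen_ball.mem_nhds hyb
    have h3 : ContinuousAt (fun q => δ⁻¹ • g q) y :=
      (hgat y hyr).continuousAt.const_smul δ⁻¹
    have h4 : ∀ᶠ q in 𝓝 y, δ⁻¹ • g q ∈ Metric.ball (0 : Fin 2 → ℝ) 1 := by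
      refine h3.eventually (Metric.isOpen_ball.mem_nhds ?_)
      change δ⁻¹ • g y ∈ Metric.ball (0 : Fin 2 → ℝ) 1
      rw [hgk y (hrN hyr) hyk, smul_zero]
      exact Metric.mem_ball_self one_pos
    filter_upwards [h2, h4] with q hq1 hq2
    rw [hη]
    change κ q * β (δ⁻¹ • g q) = 1
    rw [κ.one_of_mem_closedBall (by rw [hκ.1]; exact Metric.ball_subset_closedBall hq1),
      β.one_of_mem_closedBall (by rw [hβ.1]; exact Metric.ball_subset_closedBall hq2), one_mul]
  · refine HasCompactSupport.intro (isCompact_closedBall p₀ (r / 2)) fun p hp => ?_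
    exact (hout p hp).self_of_nhds
  · have h2 : ∫ x, η x * ‖Φ x‖ ≤ C * (3 * δ) ^ 2 := by
      refine le_trans (integral_mono_of_nonneg (Eventually.of_forall fun x =>
        mul_nonneg (h0 x) (norm_nonneg _)) hSint (Eventually.of_forall fun x => ?_)) hSi
      exact mul_le_mul_of_nonneg_right (hηS x) (norm_nonneg _)
    refine lt_of_le_of_lt h2 (lt_of_lt_of_le ?_ hδ2)
    have h3 : 0 ≤ 9 * M * C * δ := by positivity
    have h4 : 9 * C * δ * δ ≤ 9 * C * δ * 1 := mul_le_mul_of_nonneg_left hδ1 (by positivity)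
    nlinarith
  · have h2 : ∫ x, ‖fderiv ℝ η x‖ * ‖Φ x‖ ≤ (M / δ) * (C * (3 * δ) ^ 2) := by
      refine le_trans (integral_mono_of_nonneg (Eventually.of_forall fun x => by positivity)
        (hSint.const_mul (M / δ)) (Eventually.of_forall fun x => ?_)) ?_
      · have := mul_le_mul_of_nonneg_right (hdS x) (norm_nonneg (Φ x))
        rw [mul_assoc] at this
        exact this
      · rw [integral_const_mul]
        exact mul_le_mul_of_nonneg_left hSi (by positivity)
    refine lt_of_le_of_lt h2 (lt_of_lt_of_le ?_ hδ2)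
    have h3 : (M / δ) * (C * (3 * δ) ^ 2) = 9 * M * C * δ := by
      field_simp
      ring
    rw [h3]
    have h4 : 0 ≤ 9 * C * δ := by positivity
    nlinarith

end Pool.Agent.U896.SF
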