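import Pool.Agent.U896.SE.Mass2

/-!
# Bounded eccentricity: areas of growing squares under a closed two-form
-/

set_option autoImplicit false

open Set Filter Topology MeasureTheory
open scoped Manifold ContDiff

noncomputable section

namespace Pool.Agent.U896.SF

open Pool.Agent.Y501.SY (E)
open Pool.Agent.Y515.SY (Al)
open Pool.Agent.U896
open Pool.Agent.U896.SE (HH smul_pair two_b)

/-- Let a square move with velocity `u` and grow so fast that its sides are, for the form `s`,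
in favourable position. Then the integral of the closed form `s` does not decrease. -/
theorem frustum {d : ℕ} {s : E d → Al d 2} {P : Set (E d)} (hP : IsOpen P)
    (hs : ContDiffOn ℝ ∞ s P) (hcl : ∀ p ∈ P, extDeriv s p = 0) {y u e f : E d} {Λ : ℝ}
    (hΛ : 0 ≤ Λ)
    (hin : ∀ t ∈ Icc (0 : ℝ) 1, ∀ a ∈ Icc (-1 : ℝ) 1, ∀ b ∈ Icc (-1 : ℝ) 1,
      y + t • u + (1 + Λ * t) • (a • e + b • f) ∈ P)
    (hM : ∀ t ∈ Icc (0 : ℝ) 1, ∀ a ∈ Icc (-1 : ℝ) 1, ∀ b ∈ Icc (-1 : ℝ) 1,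
      |s (y + t • u + (1 + Λ * t) • (a • e + b • f)) ![u, f]| ≤
        Λ * s (y + t • u + (1 + Λ * t) • (a • e + b • f)) ![e, f] ∧
      |s (y + t • u + (1 + Λ * t) • (a • e + b • f)) ![u, e]| ≤
        Λ * s (y + t • u + (1 + Λ * t) • (a • e + b • f)) ![e, f]) :
    HH s e f y ≤ HH s ((1 + Λ) • e) ((1 + Λ) • f) (y + u) := by
  let pr : Fin 3 → ((Fin 3 → ℝ) →L[ℝ] ℝ) := fun i =>
    ContinuousLinearMap.proj (R := ℝ) (φ := fun _ : Fin 3 => ℝ) i
  have hpr : ∀ i x, HasFDerivAt (fun x : Fin 3 → ℝ => x i) (pr i) x := fun i x =>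
    (pr i).hasFDerivAt
  let A : (Fin 3 → ℝ) → E d := fun x => y + x 0 • u + (1 + Λ * x 0) • (x 1 • e + x 2 • f)
  let A' : (Fin 3 → ℝ) → ((Fin 3 → ℝ) →L[ℝ] E d) := fun x =>
    (pr 0).smulRight u + ((1 + Λ * x 0) • ((pr 1).smulRight e + (pr 2).smulRight f) +
      (Λ • pr 0).smulRight (x 1 • e + x 2 • f))
  have hρ : ∀ x, HasFDerivAt (fun x : Fin 3 → ℝ => 1 + Λ * x 0) (Λ • pr 0) x := fun x =>
    ((hpr 0 x).const_mul Λ).const_add 1
  have hAd : ∀ x, HasFDerivAt A (A' x) x := by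
    intro x
    have h1 : HasFDerivAt (fun x : Fin 3 → ℝ => y + x 0 • u) ((pr 0).smulRight u) x :=
      ((hpr 0 x).smul_const u).const_add y
    have h2 : HasFDerivAt (fun x : Fin 3 → ℝ => x 1 • e + x 2 • f)
        ((pr 1).smulRight e + (pr 2).smulRight f) x :=
      ((hpr 1 x).smul_const e).add ((hpr 2 x).smul_const f)
    exact h1.add ((hρ x).smul h2)
  let lo : Fin 3 → ℝ := ![0, -1, -1]
  let hi : Fin 3 → ℝ := ![1, 1, 1]
  have hle : lo ≤ hi := by
    intro i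
    fin_cases i <;> simp [lo, hi]
  have hmem : ∀ x ∈ Icc lo hi, x 0 ∈ Icc (0 : ℝ) 1 ∧ x 1 ∈ Icc (-1 : ℝ) 1 ∧ x 2 ∈ Icc (-1 : ℝ) 1 := by
    intro x hx
    exact ⟨⟨hx.1 0, hx.2 0⟩, ⟨hx.1 1, hx.2 1⟩, ⟨hx.1 2, hx.2 2⟩⟩
  have hAP : ∀ x ∈ Icc lo hi, A x ∈ P := by
    intro x hx
    obtain ⟨h0, h1, h2⟩ := hmem x hx
    exact hin _ h0 _ h1 _ h2
  have hsd : ∀ p ∈ P, HasFDerivAt s (fderiv ℝ s p) p := fun p hp =>
    ((hs.contDiffAt (hP.mem_nhds hp)).differentiableAt (by simp)).hasFDerivAt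
  let ev : E d → E d → (Al d 2 →L[ℝ] ℝ) := fun v w =>
    ContinuousAlternatingMap.apply ℝ (E d) ℝ ![v, w]
  have hev : ∀ v w (η : Al d 2), ev v w η = η ![v, w] := fun v w η => rfl
  let F : Fin 3 → (Fin 3 → ℝ) → ℝ :=
    ![fun x => (1 + Λ * x 0) * ((1 + Λ * x 0) * ev e f (s (A x))),
      fun x => -((1 + Λ * x 0) * (ev u f (s (A x)) + Λ * (x 1 * ev e f (s (A x))))),
      fun x => (1 + Λ * x 0) * (ev u e (s (A x)) - Λ * (x 2 * ev e f (s (A x))))]
  let T : E d → E d → (Fin 3 → ℝ) → ((Fin 3 → ℝ) →L[ℝ] ℝ) := fun v w x =>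
    (ev v w).comp ((fderiv ℝ s (A x)).comp (A' x))
  let F' : Fin 3 → (Fin 3 → ℝ) → ((Fin 3 → ℝ) →L[ℝ] ℝ) :=
    ![fun x => (1 + Λ * x 0) • ((1 + Λ * x 0) • T e f x + ev e f (s (A x)) • (Λ • pr 0)) +
        ((1 + Λ * x 0) * ev e f (s (A x))) • (Λ • pr 0),
      fun x => -((1 + Λ * x 0) • (T u f x + Λ • (x 1 • T e f x + ev e f (s (A x)) • pr 1)) +
        (ev u f (s (A x)) + Λ * (x 1 * ev e f (s (A x)))) • (Λ • pr 0)),
      fun x => (1 + Λ * x 0) • (T u e x - Λ • (x 2 • T e f x + ev e f (s (A x)) • pr 2)) +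
        (ev u e (s (A x)) - Λ * (x 2 * ev e f (s (A x)))) • (Λ • pr 0)]
  have hF : ∀ x ∈ Icc lo hi, ∀ i, HasFDerivAt (F i) (F' i x) x := by
    intro x hx i
    have h1 : HasFDerivAt (fun x => s (A x)) ((fderiv ℝ s (A x)).comp (A' x)) x :=
      (hsd _ (hAP x hx)).comp x (hAd x)
    have hT : ∀ v w, HasFDerivAt (fun x => ev v w (s (A x))) (T v w x) x := fun v w =>
      (ev v w).hasFDerivAt.comp x h1
    fin_cases i
    · exact (hρ x).mul ((hρ x).mul (hT e f))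
    · exact ((hρ x).mul ((hT u f).add (((hpr 1 x).mul (hT e f)).const_mul Λ))).neg
    · exact (hρ x).mul ((hT u e).sub (((hpr 2 x).mul (hT e f)).const_mul Λ))
  have hdiv : ∀ x ∈ Icc lo hi, ∑ i, F' i x (Pi.single i 1) = 0 := by
    intro x hx
    have h1 := hcl _ (hAP x hx)
    have h2 : extDeriv s (A x) ![u, e, f] = 0 := by rw [h1]; rfl
    unfold extDeriv at h2
    rw [ContinuousAlternatingMap.alternatizeUncurryFin_apply] at h2
    rw [Fin.sum_univ_three] at h2 ⊢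
    have e0 : A' x (Pi.single 0 1) = u + Λ • (x 1 • e + x 2 • f) := by simp [A', pr]
    have e1 : A' x (Pi.single 1 1) = (1 + Λ * x 0) • e := by simp [A', pr]
    have e2 : A' x (Pi.single 2 1) = (1 + Λ * x 0) • f := by simp [A', pr]
    have r0 : (0 : Fin 3).removeNth ![u, e, f] = ![e, f] := by
      ext i j; fin_cases i <;> rfl
    have r1 : (1 : Fin 3).removeNth ![u, e, f] = ![u, f] := by
      ext i j; fin_cases i <;> rfl
    have r2 : (2 : Fin 3).removeNth ![u, e, f] = ![u, e] := by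
      ext i j; fin_cases i <;> rfl
    rw [r0, r1, r2] at h2
    have hTe : ∀ v w i, T v w x (Pi.single i 1) = ev v w (fderiv ℝ s (A x) (A' x (Pi.single i 1))) :=
      fun v w i => rfl
    have h3 : fderiv ℝ s (A x) u ![e, f] - fderiv ℝ s (A x) e ![u, f] +
        fderiv ℝ s (A x) f ![u, e] = 0 := by
      simpa [sub_eq_add_neg] using h2
    have p00 : pr 0 (Pi.single 0 1) = 1 := by simp [pr]
    have p01 : pr 0 (Pi.single 1 1) = 0 := by simp [pr]
    have p02 : pr 0 (Pi.single 2 1) = 0 := by simp [pr]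
    have p11 : pr 1 (Pi.single 1 1) = 1 := by simp [pr]
    have p22 : pr 2 (Pi.single 2 1) = 1 := by simp [pr]
    have g0 : F' 0 x (Pi.single 0 1) = (1 + Λ * x 0) * ((1 + Λ * x 0) *
        ev e f (fderiv ℝ s (A x) (u + Λ • (x 1 • e + x 2 • f))) + ev e f (s (A x)) * (Λ * 1)) +
        ((1 + Λ * x 0) * ev e f (s (A x))) * (Λ * 1) := by
      rw [← e0, ← p00]
      rfl
    have g1 : F' 1 x (Pi.single 1 1) = -((1 + Λ * x 0) * (ev u f (fderiv ℝ s (A x)
        ((1 + Λ * x 0) • e)) + Λ * (x 1 * ev e f (fderiv ℝ s (A x) ((1 + Λ * x 0) • e)) +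
          ev e f (s (A x)) * 1)) + (ev u f (s (A x)) + Λ * (x 1 * ev e f (s (A x)))) * (Λ * 0)) := by
      rw [← e1, ← p11, ← p01]
      rfl
    have g2 : F' 2 x (Pi.single 2 1) = (1 + Λ * x 0) * (ev u e (fderiv ℝ s (A x)
        ((1 + Λ * x 0) • f)) - Λ * (x 2 * ev e f (fderiv ℝ s (A x) ((1 + Λ * x 0) • f)) +
          ev e f (s (A x)) * 1)) + (ev u e (s (A x)) - Λ * (x 2 * ev e f (s (A x)))) * (Λ * 0) := by
      rw [← e2, ← p22, ← p02]
      rfl
    rw [g0, g1, g2]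
    simp only [map_add, map_smul, smul_eq_mul]
    simp only [hev]
    linear_combination ((1 + Λ * x 0) ^ 2) * h3
  have hmain := integral_divergence_of_hasFDerivAt_off_countable' lo hi hle F F' ∅
    countable_empty (fun i => fun x hx => (hF x hx i).continuousAt.continuousWithinAt)
    (fun x hx i => hF x ⟨fun j => (hx.1 j (mem_univ j)).1.le, fun j => (hx.1 j (mem_univ j)).2.le⟩ i)
    (by
      refine (integrableOn_zero (μ := volume) (s := Icc lo hi)).congr_fun (fun x hx => ?_)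
        measurableSet_Icc
      rw [hdiv x hx])
  have hzero : ∫ x in Icc lo hi, ∑ i, F' i x (Pi.single i 1) = 0 := by
    rw [setIntegral_congr_fun measurableSet_Icc (fun x hx => hdiv x hx)]
    simp
  rw [hzero, Fin.sum_univ_three] at hmain
  -- the faces
  have f0 : ∀ c : ℝ, ∫ x in Icc (lo ∘ (0 : Fin 3).succAbove) (hi ∘ (0 : Fin 3).succAbove),
      F 0 ((0 : Fin 3).insertNth c x) = HH s ((1 + Λ * c) • e) ((1 + Λ * c) • f) (y + c • u) := by
    intro c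
    have h1 : Icc (lo ∘ (0 : Fin 3).succAbove) (hi ∘ (0 : Fin 3).succAbove) = SE.sq := by
      unfold SE.sq
      congr 1
      · funext i; fin_cases i <;> rfl
      · funext i; fin_cases i <;> rfl
    rw [h1]
    unfold HH
    congr 1
    funext z
    rw [smul_pair]
    have h2 : y + c • u + z 0 • (1 + Λ * c) • e + z 1 • (1 + Λ * c) • f =
        y + c • u + (1 + Λ * c) • (z 0 • e + z 1 • f) := by
      rw [smul_add, smul_comm (z 0), smul_comm (z 1), add_assoc]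
    rw [h2]
    change (1 + Λ * c) * ((1 + Λ * c) * s (y + c • u + (1 + Λ * c) • (z 0 • e + z 1 • f)) ![e, f])
      = _
    ring
  have hside : ∀ (i : Fin 3) (hi1 : i ≠ 0),
      ∫ x in Icc (lo ∘ i.succAbove) (hi ∘ i.succAbove), F i (i.insertNth 1 x) ≤ 0 ∧
      0 ≤ ∫ x in Icc (lo ∘ i.succAbove) (hi ∘ i.succAbove), F i (i.insertNth (-1) x) := by
    intro i hi1
    refine ⟨setIntegral_nonpos measurableSet_Icc fun x hx => ?_,
      setIntegral_nonneg measurableSet_Icc fun x hx => ?_⟩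
    · fin_cases i
      · exact absurd rfl hi1
      · have hx0 : x 0 ∈ Icc (0 : ℝ) 1 := ⟨hx.1 0, hx.2 0⟩
        have hx1 : x 1 ∈ Icc (-1 : ℝ) 1 := ⟨hx.1 1, hx.2 1⟩
        have h2 := (hM _ hx0 1 (by simp) _ hx1).1
        have h3 := neg_abs_le (s (y + x 0 • u + (1 + Λ * x 0) • ((1 : ℝ) • e + x 1 • f)) ![u, f])
        have h4 : 0 ≤ 1 + Λ * x 0 := by
          have := mul_nonneg hΛ hx0.1
          linarith
        change -((1 + Λ * x 0) * (s (y + x 0 • u + (1 + Λ * x 0) • ((1 : ℝ) • e + x 1 • f)) ![u, f] +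
          Λ * (1 * s (y + x 0 • u + (1 + Λ * x 0) • ((1 : ℝ) • e + x 1 • f)) ![e, f]))) ≤ 0
        rw [neg_nonpos]
        refine mul_nonneg h4 ?_
        linarith
      · have hx0 : x 0 ∈ Icc (0 : ℝ) 1 := ⟨hx.1 0, hx.2 0⟩
        have hx1 : x 1 ∈ Icc (-1 : ℝ) 1 := ⟨hx.1 1, hx.2 1⟩
        have h2 := (hM _ hx0 _ hx1 1 (by simp)).2
        have h3 := le_abs_self (s (y + x 0 • u + (1 + Λ * x 0) • (x 1 • e + (1 : ℝ) • f)) ![u, e])
        have h4 : 0 ≤ 1 + Λ * x 0 := by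
          have := mul_nonneg hΛ hx0.1
          linarith
        change (1 + Λ * x 0) * (s (y + x 0 • u + (1 + Λ * x 0) • (x 1 • e + (1 : ℝ) • f)) ![u, e] -
          Λ * (1 * s (y + x 0 • u + (1 + Λ * x 0) • (x 1 • e + (1 : ℝ) • f)) ![e, f])) ≤ 0
        refine mul_nonpos_of_nonneg_of_nonpos h4 ?_
        linarith
    · fin_cases i
      · exact absurd rfl hi1
      · have hx0 : x 0 ∈ Icc (0 : ℝ) 1 := ⟨hx.1 0, hx.2 0⟩
        have hx1 : x 1 ∈ Icc (-1 : ℝ) 1 := ⟨hx.1 1, hx.2 1⟩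
        have h2 := (hM _ hx0 (-1) (by simp) _ hx1).1
        have h3 := le_abs_self (s (y + x 0 • u + (1 + Λ * x 0) • ((-1 : ℝ) • e + x 1 • f)) ![u, f])
        have h4 : 0 ≤ 1 + Λ * x 0 := by
          have := mul_nonneg hΛ hx0.1
          linarith
        change 0 ≤ -((1 + Λ * x 0) * (s (y + x 0 • u + (1 + Λ * x 0) • ((-1 : ℝ) • e + x 1 • f))
          ![u, f] + Λ * (-1 * s (y + x 0 • u + (1 + Λ * x 0) • ((-1 : ℝ) • e + x 1 • f)) ![e, f])))
        rw [neg_nonneg]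
        refine mul_nonpos_of_nonneg_of_nonpos h4 ?_
        linarith
      · have hx0 : x 0 ∈ Icc (0 : ℝ) 1 := ⟨hx.1 0, hx.2 0⟩
        have hx1 : x 1 ∈ Icc (-1 : ℝ) 1 := ⟨hx.1 1, hx.2 1⟩
        have h2 := (hM _ hx0 _ hx1 (-1) (by simp)).2
        have h3 := neg_abs_le (s (y + x 0 • u + (1 + Λ * x 0) • (x 1 • e + (-1 : ℝ) • f)) ![u, e])
        have h4 : 0 ≤ 1 + Λ * x 0 := by
          have := mul_nonneg hΛ hx0.1
          linarith
        change 0 ≤ (1 + Λ * x 0) * (s (y + x 0 • u + (1 + Λ * x 0) • (x 1 • e + (-1 : ℝ) • f))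
          ![u, e] - Λ * (-1 * s (y + x 0 • u + (1 + Λ * x 0) • (x 1 • e + (-1 : ℝ) • f)) ![e, f]))
        refine mul_nonneg h4 ?_
        linarith
  have k0 := f0 (hi 0)
  have k1 := f0 (lo 0)
  have hh0 : hi 0 = 1 := rfl
  have hl0 : lo 0 = 0 := rfl
  rw [hh0, one_smul, mul_one] at k0
  rw [hl0, zero_smul, add_zero, mul_zero, add_zero, one_smul, one_smul] at k1
  obtain ⟨b1, b2⟩ := hside 1 (by decide)
  obtain ⟨b3, b4⟩ := hside 2 (by decide)
  have q1 : hi 1 = 1 := rfl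
  have q2 : lo 1 = -1 := rfl
  have q3 : hi 2 = 1 := rfl
  have q4 : lo 2 = -1 := rfl
  rw [hh0, hl0, k0, k1, q1, q2, q3, q4] at hmain
  linarith

end Pool.Agent.U896.SF
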