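import Pool.Agent.U896.SE.StepE
import Pool.Agent.U896.SF.RegG

/-!
# Bounded eccentricity: one step of the regularization on a manifold, in codimension two
-/

set_option autoImplicit false

open Set Filter Topology MeasureTheory
open scoped Manifold ContDiff

noncomputable section

namespace Pool.Agent.U896.SF

open Pool.Agent.Y501.SY
open Pool.Agent.U896.SE (UE to_chart)

section

variable {d : ℕ} {X : Type} [TopologicalSpace X] [ChartedSpace (E d) X]

theorem InSub.mono {m : ℕ} {Js : E d → (E d →L[ℝ] E d)} {k k' : Set (E d)} {p : E d}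
    (h : InSub m Js k p) (hk : k' ⊆ k) : InSub m Js k' p := by
  obtain ⟨N, g, e, hN, hpN, hg, hgs, hgk, he, hge, hgJ⟩ := h
  exact ⟨N, g, e, hN, hpN, hg, hgs, fun x hx hxk => hgk x hx (hk hxk), he, hge, hgJ⟩

/-- in the charts, `K` is locally contained in submanifolds of codimension two, whose tangent
spaces at the points of `K` contain complex lines -/
def SubK (J : End d X) (K : Set X) : Prop :=
  ∀ z : X, ∀ p ∈ (chartAt (E d) z).target, (chartAt (E d) z).symm p ∈ K →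
    InSub 2 (inChart J z) ((chartAt (E d) z).target ∩ (chartAt (E d) z).symm ⁻¹' K) p

theorem SubK.mono {J : End d X} {K K' : Set X} (h : SubK J K) (hK : K' ⊆ K) : SubK J K' := by
  intro z p hp hpK
  exact (h z p hp (hK hpK)).mono (inter_subset_inter_right _ (preimage_mono hK))

theorem stepS {m : ℕ} (hI : S_IMM) (hSm : S_SM) (hPa : S_PATCH2)
    [IsManifold (𝓡 d) ∞ X] [T2Space X] {F : X → E m} (hF : ContMDiff (𝓡 d) (𝓡 m) ∞ F)
    (hFi : ∀ x, Function.Injective (mfderiv (𝓡 d) (𝓡 m) F x)) {J : End d X}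
    (hJ : IsAlmostComplex J) {A' : Set X} (hA : IsOpen A') {z : X} (hz : z ∈ A') :
    ∃ W : Set X, IsOpen W ∧ z ∈ W ∧ ∀ (K : Set X) (w : Form d X 2), IsClosed K →
    SubK J K → UE F J w K → ∃ w' : Form d X 2, UE F J w' (K \ W) ∧ ∀ x, x ∉ A' → w' x = w x := by
  -- the ball
  obtain ⟨r, hr, hball⟩ : ∃ r : ℝ, 0 < r ∧ ∀ p ∈ Metric.closedBall (chartAt (E d) z z) r,
      p ∈ (chartAt (E d) z).target ∧ (chartAt (E d) z).symm p ∈ A' := by
    have h1 : ContinuousAt (chartAt (E d) z).symm (chartAt (E d) z z) :=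
      (chartAt (E d) z).continuousAt_symm (mem_chart_target (E d) z)
    have h2 : (chartAt (E d) z).symm (chartAt (E d) z z) = z :=
      (chartAt (E d) z).left_inv (mem_chart_source (E d) z)
    have h3 : ∀ᶠ x in 𝓝 ((chartAt (E d) z).symm (chartAt (E d) z z)), x ∈ A' := by
      rw [h2]
      exact hA.mem_nhds hz
    have h4 := h1.eventually h3
    have h5 : ∀ᶠ p in 𝓝 (chartAt (E d) z z), p ∈ (chartAt (E d) z).target :=
      (chartAt (E d) z).open_target.mem_nhds (mem_chart_target (E d) z)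
    obtain ⟨r, hr, h6⟩ := Metric.nhds_basis_closedBall.mem_iff.1 (h5.and h4)
    exact ⟨r, hr, fun p hp => ⟨(h6 hp).1, (h6 hp).2⟩⟩
  obtain ⟨p₀, hp₀⟩ : ∃ p₀, p₀ = chartAt (E d) z z := ⟨_, rfl⟩
  rw [← hp₀] at hball
  obtain ⟨e, he⟩ : ∃ e, e = chartAt (E d) z := ⟨_, rfl⟩
  have hzs : z ∈ e.source := by rw [he]; exact mem_chart_source (E d) z
  have hez : e z = p₀ := by rw [he, hp₀]
  have hVt : Metric.closedBall p₀ r ⊆ e.target := fun p hp => by
    rw [he]; exact (hball p hp).1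
  have hV : Metric.ball p₀ r ⊆ e.target := Metric.ball_subset_closedBall.trans hVt
  have hN : IsCompact (Metric.closedBall p₀ r) := isCompact_closedBall p₀ r
  obtain ⟨ci, Ci, hci, hCi, hnm⟩ := hI d m X F hF hFi z (Metric.closedBall p₀ r) hN
    (by rw [← he]; exact hVt)
  have hW : IsOpen (e.source ∩ e ⁻¹' Metric.ball p₀ (r / 2)) :=
    e.isOpen_inter_preimage Metric.isOpen_ball
  have hO : IsOpen (e.source ∩ e ⁻¹' Metric.ball p₀ r) :=
    e.isOpen_inter_preimage Metric.isOpen_ball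
  obtain ⟨W, hWd⟩ : ∃ W, W = e.source ∩ e ⁻¹' Metric.ball p₀ (r / 2) := ⟨_, rfl⟩
  obtain ⟨O, hOd⟩ : ∃ O, O = e.source ∩ e ⁻¹' Metric.ball p₀ r := ⟨_, rfl⟩
  rw [← hWd] at hW
  rw [← hOd] at hO
  have heO : e '' O = Metric.ball p₀ r := by
    apply Subset.antisymm
    · rintro _ ⟨x, hx, rfl⟩
      rw [hOd] at hx
      exact hx.2
    · intro p hp
      refine ⟨e.symm p, ?_, e.right_inv (hV hp)⟩
      rw [hOd]
      refine ⟨e.map_target (hV hp), ?_⟩
      rw [mem_preimage, e.right_inv (hV hp)]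
      exact hp
  have hOs : O ⊆ e.source := by rw [hOd]; exact inter_subset_left
  have hWO : W ⊆ O := by
    rw [hWd, hOd]
    exact inter_subset_inter_right _ (preimage_mono (Metric.ball_subset_ball (by linarith)))
  have hOA : O ⊆ A' := by
    intro x hx
    have h1 : e x ∈ Metric.ball p₀ r := by rw [hOd] at hx; exact hx.2
    have h2 := (hball (e x) (Metric.ball_subset_closedBall h1)).2
    rw [← he, e.left_inv (hOs hx)] at h2
    exact h2
  have hWs : ∀ p ∈ Metric.ball p₀ r, e.symm p ∈ W ↔ p ∈ Metric.ball p₀ (r / 2) := by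
    intro p hp
    rw [hWd]
    constructor
    · rintro ⟨_, h⟩
      rwa [mem_preimage, e.right_inv (hV hp)] at h
    · intro h
      refine ⟨e.map_target (hV hp), ?_⟩
      rwa [mem_preimage, e.right_inv (hV hp)]
  -- the cut-off function
  obtain ⟨χ, hχ⟩ : ∃ χ : ContDiffBump p₀, χ.rOut = r / 2 :=
    ⟨⟨r / 4, r / 2, by positivity, by linarith⟩, rfl⟩
  have hχt : tsupport χ = Metric.closedBall p₀ (r / 2) := by rw [χ.tsupport_eq, hχ]
  have hχ0 : ∀ p, χ p = 0 ↔ p ∉ Metric.ball p₀ (r / 2) := by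
    intro p
    rw [← hχ, ← χ.support_eq, Function.notMem_support]
  have htV : Metric.closedBall p₀ (r / 2) ⊆ Metric.ball p₀ r :=
    Metric.closedBall_subset_ball (by linarith)
  refine ⟨W, hW, ?_, ?_⟩
  · rw [hWd]
    refine ⟨hzs, ?_⟩
    rw [mem_preimage, hez]
    exact Metric.mem_ball_self (by linarith)
  intro K w hK hH hUT
  obtain ⟨c₁, hc₁, hwc⟩ := hUT.pos
  obtain ⟨c₂, hc₂, hwe⟩ := hUT.ecc
  obtain ⟨k, hk⟩ : ∃ k, k = Metric.ball p₀ r ∩ e.symm ⁻¹' K := ⟨_, rfl⟩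
  have hVk : Metric.ball p₀ r \ k = Metric.ball p₀ r ∩ e.symm ⁻¹' Kᶜ := by
    rw [hk]
    ext p
    simp only [Set.mem_sdiff, mem_inter_iff, mem_preimage, mem_compl_iff]
    tauto
  have hVko : IsOpen (Metric.ball p₀ r \ k) := by
    rw [hVk]
    have h1 : IsOpen (e.target ∩ e.symm ⁻¹' Kᶜ) := e.isOpen_inter_preimage_symm hK.isOpen_compl
    have h2 : Metric.ball p₀ r ∩ e.symm ⁻¹' Kᶜ = Metric.ball p₀ r ∩ (e.target ∩ e.symm ⁻¹' Kᶜ) := by
      rw [← inter_assoc, inter_eq_left.2 hV]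
    rw [h2]
    exact Metric.isOpen_ball.inter h1
  have hsK : ∀ p ∈ Metric.ball p₀ r \ k, e.symm p ∉ K := by
    intro p hp
    rw [hVk] at hp
    exact hp.2
  have hsubk : ∀ p ∈ Metric.ball p₀ r, p ∈ k → InSub 2 (inChart J z) k p := by
    intro p hp hpk
    rw [hk] at hpk
    refine (hH z p (by rw [← he]; exact hV hp) (by rw [← he]; exact hpk.2)).mono ?_
    rw [hk, ← he]
    exact inter_subset_inter_left _ hV
  have hsymm : ContMDiffOn (𝓡 d) (𝓡 d) ∞ (chartAt (E d) z).symm (Metric.ball p₀ r) :=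
    contMDiffOn_chart_symm.mono (by rw [← he]; exact hV)
  have hs1 : ContDiffOn ℝ ∞ (pb (chartAt (E d) z).symm w) (Metric.ball p₀ r \ k) :=
    hUT.smooth _ _ hVko (hsymm.mono sdiff_subset) (by rw [← he]; exact hsK)
  have hs2 : ∀ p ∈ Metric.ball p₀ r \ k, extDeriv (pb (chartAt (E d) z).symm w) p = 0 := by
    intro p hp
    have h1 := hUT.closed _ _ hVko (hsymm.mono sdiff_subset) (by rw [← he]; exact hsK) p hp
    rw [h1, pb_zero]
    rfl
  have hs4 : ∀ p ∈ Metric.ball p₀ r \ k, ∀ v : E d,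
      min (c₁ * ci ^ 2) (c₂ * ci ^ 2 / Ci ^ 2) / 2 * (1 + ‖pb (chartAt (E d) z).symm w p‖) *
        ‖v‖ ^ 2 ≤ pb (chartAt (E d) z).symm w p ![v, inChart J z p v] := by
    intro p hp v
    have hpc : p ∈ Metric.closedBall p₀ r := Metric.ball_subset_closedBall hp.1
    have hpK : (chartAt (E d) z).symm p ∉ K := by rw [← he]; exact hsK p hp
    refine to_chart (q := fun v => pb (chartAt (E d) z).symm w p ![v, inChart J z p v])
      (n := fun v => nm F ((chartAt (E d) z).symm p)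
        (mfderiv (𝓡 d) (𝓡 d) (chartAt (E d) z).symm p v)) hci hCi hc₁ hc₂ (hnm p hpc) ?_ ?_ v
    · intro v
      have h0 := Pool.Agent.Y455.SY.Q_eq w J z (p := p) (by rw [← he]; exact hV hp.1) v
      unfold Pool.Agent.Y455.SY.Q at h0
      rw [h0]
      exact hwc ((chartAt (E d) z).symm p) hpK (Pool.Agent.Y455.SY.A z p v)
    · intro v u u'
      have h0 := Pool.Agent.Y455.SY.Q_eq w J z (p := p) (by rw [← he]; exact hV hp.1) v
      unfold Pool.Agent.Y455.SY.Q at h0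
      rw [h0, pb_app2]
      exact hwe ((chartAt (E d) z).symm p) hpK (Pool.Agent.Y455.SY.A z p v)
        (Pool.Agent.Y455.SY.A z p u) (Pool.Agent.Y455.SY.A z p u')
  have hJc : ContinuousOn (inChart J z) (Metric.ball p₀ r) := (hJ.cont z).mono (by
    rw [← he]; exact hV)
  have hcc : 0 < min (c₁ * ci ^ 2) (c₂ * ci ^ 2 / Ci ^ 2) / 2 :=
    half_pos (lt_min (by positivity) (by positivity))
  have hs5 : ∀ p ∈ Metric.ball p₀ r \ k, ∀ v : E d,
      min (c₁ * ci ^ 2) (c₂ * ci ^ 2 / Ci ^ 2) / 2 * ‖pb (chartAt (E d) z).symm w p‖ *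
        ‖v‖ ^ 2 ≤ pb (chartAt (E d) z).symm w p ![v, inChart J z p v] := by
    intro p hp v
    refine le_trans ?_ (hs4 p hp v)
    have h1 := norm_nonneg (pb (chartAt (E d) z).symm w p)
    gcongr
    linarith
  obtain ⟨s', c', hc', g1, g2, g4, g5⟩ := regG hSm (V := Metric.ball p₀ r) (k := k) (χ := χ)
    (s := pb (chartAt (E d) z).symm w) (Js := inChart J z)
    (c := min (c₁ * ci ^ 2) (c₂ * ci ^ 2 / Ci ^ 2) / 2) hcc
    Metric.isOpen_ball hVko
    (fun Q hQ hQV => (subs Metric.isOpen_ball hVko hs1 hs2 hJc hcc hs5 hsubk hQ hQV).1)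
    (fun Q hQ hQV => (subs Metric.isOpen_ball hVko hs1 hs2 hJc hcc hs5 hsubk hQ hQV).2.2)
    (fun Q hQ hQV => (subs Metric.isOpen_ball hVko hs1 hs2 hJc hcc hs5 hsubk hQ hQV).2.1)
    χ.contDiff (fun p => χ.nonneg) χ.hasCompactSupport
    (by rw [hχt]; exact htV) hs1 hs2 hJc hs4
  -- the new singular set
  have hKW : IsClosed (K \ W) := by
    rw [sdiff_eq]
    exact hK.inter hW.isClosed_compl
  have hset : (chartAt (E d) z '' O) \ (chartAt (E d) z '' ((K \ W) ∩ O)) =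
      Metric.ball p₀ r \ (k ∩ {p | χ p = 0}) := by
    rw [← he, heO]
    ext p
    constructor
    · rintro ⟨hp, hn⟩
      refine ⟨hp, ?_⟩
      rintro ⟨h1, h2⟩
      apply hn
      rw [hk] at h1
      refine ⟨e.symm p, ⟨⟨h1.2, ?_⟩, ?_⟩, e.right_inv (hV hp)⟩
      · rw [hWs p hp]
        exact (hχ0 p).1 h2
      · rw [hOd]
        refine ⟨e.map_target (hV hp), ?_⟩
        rwa [mem_preimage, e.right_inv (hV hp)]
    · rintro ⟨hp, hn⟩
      refine ⟨hp, ?_⟩
      rintro ⟨x, ⟨⟨hxK, hxW⟩, hxO⟩, rfl⟩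
      apply hn
      have hxs := hOs hxO
      refine ⟨?_, ?_⟩
      · rw [hk]
        refine ⟨hp, ?_⟩
        change e.symm (e x) ∈ K
        rwa [e.left_inv hxs]
      · change χ (e x) = 0
        rw [hχ0, ← hWs _ hp, e.left_inv hxs]
        exact hxW
  obtain ⟨f1, f2, f3, f4⟩ := hPa d X z O K (K \ W) (Metric.closedBall p₀ (r / 2)) s' w hO
    (by rw [← he]; exact hOs) hKW sdiff_subset (isCompact_closedBall _ _)
    (by rw [← he, heO]; exact htV)
    (by
      intro x hx hx2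
      have hxW : x ∈ W := by
        by_contra h
        exact hx2 ⟨hx, h⟩
      refine ⟨hWO hxW, ?_⟩
      rw [← he]
      rw [hWd] at hxW
      exact Metric.ball_subset_closedBall hxW.2)
    (by rw [hset]; exact g1) (by rw [hset]; exact g2)
    (by
      intro p hp
      apply g4
      rw [hχ0]
      exact fun h => hp.2 (Metric.ball_subset_closedBall h))
    hUT.smooth hUT.closed
  have hout : ∀ x, x ∉ O → patch z O s' w x = w x := fun x hx => f3 x (Or.inl hx)
  have hin : ∀ x ∈ O, x ∉ K \ W → ∃ p ∈ Metric.ball p₀ r \ (k ∩ {p | χ p = 0}), e.symm p = x := by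
    intro x hx hx2
    refine ⟨e x, ?_, e.left_inv (hOs hx)⟩
    rw [← hset, ← he]
    refine ⟨⟨x, hx, rfl⟩, ?_⟩
    rintro ⟨y, hy, hyx⟩
    have : y = x := e.injOn (hOs hy.2) (hOs hx) hyx
    rw [this] at hy
    exact hx2 hy.1
  -- the pointwise comparison in the chart
  have hloc : ∀ x ∈ O, x ∉ K \ W → ∀ v u w' : TangentSpace (𝓡 d) x,
      c' * Ci⁻¹ ^ 2 * nm F x v ^ 2 ≤ patch z O s' w x ![v, J x v] ∧
      c' * ci ^ 2 * Ci⁻¹ ^ 2 * |patch z O s' w x ![u, w']| * nm F x v ^ 2 ≤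
        patch z O s' w x ![v, J x v] * (nm F x u * nm F x w') := by
    intro x hxO hx v u w'
    obtain ⟨p, hp, rfl⟩ := hin x hxO hx
    have hpc : p ∈ Metric.closedBall p₀ r := Metric.ball_subset_closedBall hp.1
    have hpt : p ∈ (chartAt (E d) z).target := by rw [← he]; exact hV hp.1
    subst he
    have hv := Pool.Agent.Y455.SY.AB z hpt v
    have hu := Pool.Agent.Y455.SY.AB z hpt u
    have hw := Pool.Agent.Y455.SY.AB z hpt w'
    obtain ⟨v', hv'⟩ : ∃ v', v' = Pool.Agent.Y455.SY.B z p v := ⟨_, rfl⟩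
    obtain ⟨u', hu'⟩ : ∃ u', u' = Pool.Agent.Y455.SY.B z p u := ⟨_, rfl⟩
    obtain ⟨w'', hw''⟩ : ∃ w'', w'' = Pool.Agent.Y455.SY.B z p w' := ⟨_, rfl⟩
    rw [← hv'] at hv
    rw [← hu'] at hu
    rw [← hw''] at hw
    have hf4 := f4 p (by rw [heO]; exact hp.1)
    have h1 : patch z O s' w ((chartAt (E d) z).symm p) ![u, w'] = s' p ![u', w''] := by
      rw [← hf4, pb_app2]
      change _ = patch z O s' w ((chartAt (E d) z).symm p) ![Pool.Agent.Y455.SY.A z p u',
        Pool.Agent.Y455.SY.A z p w'']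
      rw [hu, hw]
    have h0 := Pool.Agent.Y455.SY.Q_eq (patch z O s' w) J z hpt v'
    unfold Pool.Agent.Y455.SY.Q at h0
    rw [hv, hf4] at h0
    have hq := g5 p hp v'
    rw [h0] at hq
    have n1 : 0 ≤ nm F ((chartAt (E d) z).symm p) v := norm_nonneg _
    have n2 : 0 ≤ nm F ((chartAt (E d) z).symm p) u := norm_nonneg _
    have n3 : 0 ≤ nm F ((chartAt (E d) z).symm p) w' := norm_nonneg _
    have hv4 := (hnm p hpc v').2
    change nm F ((chartAt (E d) z).symm p) (Pool.Agent.Y455.SY.A z p v') ≤ Ci * ‖v'‖ at hv4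
    rw [hv] at hv4
    have hu4 := (hnm p hpc u').1
    change ci * ‖u'‖ ≤ nm F ((chartAt (E d) z).symm p) (Pool.Agent.Y455.SY.A z p u') at hu4
    rw [hu] at hu4
    have hw4 := (hnm p hpc w'').1
    change ci * ‖w''‖ ≤ nm F ((chartAt (E d) z).symm p) (Pool.Agent.Y455.SY.A z p w'') at hw4
    rw [hw] at hw4
    have h6 : Ci⁻¹ * nm F ((chartAt (E d) z).symm p) v ≤ ‖v'‖ := by
      rw [inv_mul_eq_div, div_le_iff₀ hCi, mul_comm]
      exact hv4
    have h7 : (Ci⁻¹ * nm F ((chartAt (E d) z).symm p) v) ^ 2 ≤ ‖v'‖ ^ 2 :=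
      pow_le_pow_left₀ (by positivity) h6 2
    have hb : 0 ≤ c' * ‖v'‖ ^ 2 := by positivity
    have hs0 := norm_nonneg (s' p)
    refine ⟨?_, ?_⟩
    · refine le_trans ?_ hq
      calc c' * Ci⁻¹ ^ 2 * nm F ((chartAt (E d) z).symm p) v ^ 2
          = c' * (Ci⁻¹ * nm F ((chartAt (E d) z).symm p) v) ^ 2 := by ring
        _ ≤ c' * ‖v'‖ ^ 2 := by gcongr
        _ ≤ c' * (1 + ‖s' p‖) * ‖v'‖ ^ 2 := by nlinarith
    · rw [h1]
      have h8 := le_norm2 (s' p) u' w''
      have h9 : c' * ‖s' p‖ * ‖v'‖ ^ 2 ≤ patch z O s' w ((chartAt (E d) z).symm p) ![v,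
          J ((chartAt (E d) z).symm p) v] := by
        refine le_trans ?_ hq
        nlinarith
      calc c' * ci ^ 2 * Ci⁻¹ ^ 2 * |s' p ![u', w'']| *
            nm F ((chartAt (E d) z).symm p) v ^ 2
          = (c' * ci ^ 2) * |s' p ![u', w'']| *
            (Ci⁻¹ * nm F ((chartAt (E d) z).symm p) v) ^ 2 := by ring
        _ ≤ (c' * ci ^ 2) * (‖s' p‖ * ‖u'‖ * ‖w''‖) * ‖v'‖ ^ 2 := by gcongr
        _ = (c' * ‖s' p‖ * ‖v'‖ ^ 2) * ((ci * ‖u'‖) * (ci * ‖w''‖)) := by ring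
        _ ≤ _ := by
          refine mul_le_mul h9 (mul_le_mul hu4 hw4 (by positivity) n2) (by positivity) ?_
          exact le_trans (by positivity) h9
  refine ⟨patch z O s' w, ⟨f1, f2, ?_, ?_⟩, fun x hx => hout x fun h => hx (hOA h)⟩
  · refine ⟨min c₁ (c' * Ci⁻¹ ^ 2), lt_min hc₁ (by positivity), ?_⟩
    intro x hx v
    by_cases hxO : x ∈ O
    · refine le_trans ?_ (hloc x hxO hx v v v).1
      have := min_le_right c₁ (c' * Ci⁻¹ ^ 2)
      gcongr
    · rw [hout x hxO]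
      have hxK : x ∉ K := fun h => hx ⟨h, fun h' => hxO (hWO h')⟩
      refine le_trans ?_ (hwc x hxK v)
      have := min_le_left c₁ (c' * Ci⁻¹ ^ 2)
      gcongr
  · refine ⟨min c₂ (c' * ci ^ 2 * Ci⁻¹ ^ 2), lt_min hc₂ (by positivity), ?_⟩
    intro x hx v u w'
    by_cases hxO : x ∈ O
    · refine le_trans ?_ (hloc x hxO hx v u w').2
      have := min_le_right c₂ (c' * ci ^ 2 * Ci⁻¹ ^ 2)
      gcongr
    · rw [hout x hxO]
      have hxK : x ∉ K := fun h => hx ⟨h, fun h' => hxO (hWO h')⟩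
      refine le_trans ?_ (hwe x hxK v u w')
      have := min_le_left c₂ (c' * ci ^ 2 * Ci⁻¹ ^ 2)
      gcongr

end

end Pool.Agent.U896.SF
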