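import Pool.Agent.U896.SE.MainE
import Pool.Agent.U896.SF.StepS

/-!
# Bounded eccentricity in codimension two: the main theorem
-/

set_option autoImplicit false

open Set Filter Topology MeasureTheory
open scoped Manifold ContDiff

noncomputable section

namespace Pool.Agent.U896.SF

open Pool.Agent.Y501.SY
open Pool.Agent.U896.SE (UE EccAt ecc_near globE)

section

variable {d : ℕ} {X : Type} [TopologicalSpace X] [ChartedSpace (E d) X]

variable [IsManifold (𝓡 d) ∞ X]

theorem mainS (hd : 0 < d) (hI : S_IMM) (hQ : S_QB) (hSm : S_SM)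
    (hPa : S_PATCH2) [CompactSpace X] [T2Space X] {J : End d X} (hJ : IsAlmostComplex J)
    {K : Set X} (hK : IsClosed K)
    (hH : SubK J K)
    {σ : Form d X 2} (hσ : SmoothOff σ K) (hσc : IsDOff σ 0 K) (hb : ∀ x, EccAt σ J K x)
    (hpos : ∀ x, x ∉ K → ∀ v : TangentSpace (𝓡 d) x, 0 ≤ σ x ![v, J x v])
    (hthin : ∀ z, ¬ UTAt σ J K z →
      ThinAt2 0 0 J (connectedComponentIn {x | ¬ UTAt σ J K x} z) z)
    {U : Set X} (hU : IsOpen U) (hKU : K ⊆ U) :
    ∃ (α : Form d X 1) (η w : Form d X 2), IsSmooth α ∧ IsSmooth η ∧ IsD α η ∧ IsSmooth w ∧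
      IsClosedForm w ∧ (∀ x, TamesAt w J x) ∧ ∀ x, x ∉ U → w x = (σ + η) x := by
  classical
  obtain ⟨m, F, hF, -, hFi⟩ := exists_embedding_euclidean_of_compact (I := 𝓡 d) (M := X)
  have hFc : IsClosed {x | ¬ UTAt σ J K x} :=
    (isOpen_UTAt hI hF hFi σ J K).isClosed_compl
  have hne : ∃ v : E d, v ≠ 0 := by
    have : Nontrivial (E d) := by
      have : Nonempty (Fin d) := ⟨⟨0, hd⟩⟩
      infer_instance
    exact exists_ne 0
  have hD2 : D2 (0 : Form d X 2) 0 J {x | ¬ UTAt σ J K x} = {x | ¬ UTAt σ J K x} := by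
    apply Subset.antisymm
    · exact fun x hx => hx.1
    · intro x hx
      obtain ⟨v, hv⟩ := hne
      exact ⟨hx, v, hv, rfl, rfl⟩
  obtain ⟨α, η, hpair, hη⟩ := level2 Pool.Agent.Y484.SY.t_GEN Pool.Agent.Y108.SY.t_PERT2
    Pool.Agent.Y925.SY.t_PLANAR hJ (σ := 0) (θ := 0) IsSmooth.zero IsSmooth.zero hFc (by
      rw [hD2]
      exact hthin)
  obtain ⟨hα, hηs, hαη, hηc⟩ := hpair.props Pool.Agent.Y484.SY.t_GEN
  obtain ⟨s, hs, hUT⟩ := globE hI hQ F hF hFi J hJ σ η K hσ hσc hηs hηc hb hpos (by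
    intro x
    by_cases h : UTAt σ J K x
    · exact Or.inl h
    · exact Or.inr fun v hv => hη x h v hv rfl rfl)
  -- the regularization
  choose! W hWo hWz hW using fun z (hz : z ∈ K) =>
    stepS (X := X) hI hSm hPa hF hFi hJ hU (hKU hz)
  have hfin : ∀ t : Finset X, (∀ z ∈ t, z ∈ K) → ∃ w : Form d X 2,
      UE F J w (K \ ⋃ z ∈ t, W z) ∧ ∀ x, x ∉ U → w x = (σ + s • η) x := by
    intro t
    induction t using Finset.induction_on with
    | empty =>
      intro _
      refine ⟨σ + s • η, ?_, fun x _ => rfl⟩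
      have : K \ ⋃ z ∈ (∅ : Finset X), W z = K := by simp
      rw [this]
      exact hUT
    | insert a t ha ih =>
      intro ht
      obtain ⟨w, hw, hwU⟩ := ih fun z hz => ht z (Finset.mem_insert_of_mem hz)
      have hop : IsOpen (⋃ z ∈ t, W z) :=
        isOpen_biUnion fun z hz => hWo z (ht z (Finset.mem_insert_of_mem hz))
      have hcl : IsClosed (K \ ⋃ z ∈ t, W z) := by
        rw [sdiff_eq]
        exact hK.inter hop.isClosed_compl
      obtain ⟨w', hw', hwU'⟩ := hW a (ht a (Finset.mem_insert_self a t)) _ w hcl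
        (hH.mono sdiff_subset) hw
      refine ⟨w', ?_, fun x hx => (hwU' x hx).trans (hwU x hx)⟩
      have h1 : K \ ⋃ z ∈ insert a t, W z = (K \ ⋃ z ∈ t, W z) \ W a := by
        rw [Finset.set_biUnion_insert, union_comm, sdiff_sdiff_left]
        rfl
      rw [h1]
      exact hw'
  obtain ⟨t, htK, htc⟩ := hK.isCompact.elim_nhds_subcover W
    (fun z hz => (hWo z hz).mem_nhds (hWz z hz))
  obtain ⟨w, hw, hwU⟩ := hfin t htK
  have hempty : K \ ⋃ z ∈ t, W z = ∅ := by
    rw [sdiff_eq_empty]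
    exact htc
  rw [hempty] at hw
  obtain ⟨c, hc, hwc⟩ := hw.pos
  refine ⟨s • α, s • η, w, hα.smul s, hηs.smul s, hαη.smul s,
    fun V φ hV hφ => hw.smooth V φ hV hφ fun p _ => notMem_empty _,
    fun V φ hV hφ => hw.closed V φ hV hφ fun p _ => notMem_empty _, fun x v hv => ?_, hwU⟩
  refine lt_of_lt_of_le ?_ (hwc x (notMem_empty _) v)
  have h1 : 0 < nm F x v := by
    refine lt_of_le_of_ne (norm_nonneg _) fun h => hv ?_
    have h2 : (mfderiv (𝓡 d) (𝓡 m) F x v : E m) = 0 := norm_eq_zero.1 h.symm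
    apply hFi x
    rw [map_zero]
    exact h2
  positivity

end

end Pool.Agent.U896.SF
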