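import Pool.Agent.U896.SF.Frus
import Pool.Agent.U896.SE.Mass3

/-!
# Bounded eccentricity: a bound of the mass of the slices parallel to a subspace
-/

set_option autoImplicit false

open Set Filter Topology MeasureTheory
open scoped Manifold ContDiff

noncomputable section

namespace Pool.Agent.U896.SF

open Pool.Agent.Y501.SY (E)
open Pool.Agent.Y515.SY (Al)
open Pool.Agent.U896
open Pool.Agent.U896.SE (HH smul_pair two_b pos_near mem_sq)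

/-- a bounded right inverse -/
theorem right_inv {d m : ℕ} (L : E d →L[ℝ] (Fin m → ℝ)) (hL : Function.Surjective L) :
    ∃ R : (Fin m → ℝ) →L[ℝ] E d, ∀ w, L (R w) = w := by
  obtain ⟨g, hg⟩ := (L : E d →ₗ[ℝ] (Fin m → ℝ)).exists_rightInverse_of_surjective
    (LinearMap.range_eq_top.2 hL)
  exact ⟨LinearMap.toContinuousLinearMap g, fun w => LinearMap.congr_fun hg w⟩

theorem slice {d m : ℕ} {V k : Set (E d)} (hV : IsOpen V) (hVk : IsOpen (V \ k))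
    {L : E d →L[ℝ] (Fin m → ℝ)} (hL : Function.Surjective L)
    (hkL : ∀ x ∈ V, x ∈ k → L x = 0) {s : E d → Al d 2}
    (hs : ContDiffOn ℝ ∞ s (V \ k)) (hcl : ∀ p ∈ V \ k, extDeriv s p = 0)
    {Js : E d → (E d →L[ℝ] E d)} (hJ : ContinuousOn Js V) {c : ℝ} (hc : 0 < c)
    (hpos : ∀ p ∈ V \ k, ∀ v : E d, c * ‖s p‖ * ‖v‖ ^ 2 ≤ s p ![v, Js p v])
    {p₀ : E d} (hp₀ : p₀ ∈ V) {e₀ : E d} (he₀ : ‖e₀‖ = 1)
    (hLe : L e₀ = 0) (hLJ : L (Js p₀ e₀) = 0) :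
    ∃ (e f : E d) (r C : ℝ), 0 < r ∧ 0 ≤ C ∧ L e = 0 ∧ L f = 0 ∧
      ∀ x ∈ Metric.ball p₀ r, L x ≠ 0 →
        (∀ z ∈ SE.sq, x + z 0 • e + z 1 • f ∈ V \ k) ∧
        ∫⁻ z in SE.sq, ‖s (x + z 0 • e + z 1 • f)‖ₑ ≤ ENNReal.ofReal C := by
  obtain ⟨R, δ, hR, hδ, -, hRV, hplane⟩ := pos_near (k := k) hV hJ hc hpos hp₀ he₀
  obtain ⟨f₀, hf₀⟩ : ∃ f₀, f₀ = Js p₀ e₀ := ⟨_, rfl⟩
  rw [← hf₀] at hplane hLJ
  have hpl0 : ∀ p ∈ Metric.closedBall p₀ R \ k, c / 4 * ‖s p‖ ≤ s p ![e₀, f₀] := by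
    intro p hp
    exact hplane p hp e₀ f₀ (by rw [sub_self, norm_zero]; exact hδ)
      (by rw [sub_self, norm_zero]; exact hδ)
  obtain ⟨g, hg⟩ := right_inv L hL
  obtain ⟨κ, hκ⟩ : ∃ κ : ℝ, κ = ‖g‖ + 1 := ⟨_, rfl⟩
  have hκ0 : 0 < κ := by rw [hκ]; positivity
  obtain ⟨B, hB⟩ : ∃ B : ℝ, B = ‖e₀‖ + ‖f₀‖ + 1 := ⟨_, rfl⟩
  have hB0 : 0 < B := by rw [hB]; positivity
  have hB1 : 1 ≤ B := by rw [hB, he₀]; linarith [norm_nonneg f₀]
  obtain ⟨ρ, hρ⟩ : ∃ ρ : ℝ, ρ = R / (4 * B) := ⟨_, rfl⟩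
  have hρ0 : 0 < ρ := by rw [hρ]; positivity
  have hρB : ρ * B = R / 4 := by rw [hρ]; field_simp
  obtain ⟨r₀, hr₀⟩ : ∃ r₀ : ℝ, r₀ = R / (4 * κ * (1 + 4 * B ^ 2 / c)) := ⟨_, rfl⟩
  have hr₀0 : 0 < r₀ := by rw [hr₀]; positivity
  have hr₀1 : κ * r₀ * (1 + 4 * B ^ 2 / c) = R / 4 := by
    rw [hr₀]
    field_simp
  obtain ⟨Λ, hΛ⟩ : ∃ Λ : ℝ, Λ = 4 * κ * r₀ * B / (c * ρ) := ⟨_, rfl⟩
  have hΛ0 : 0 ≤ Λ := by rw [hΛ]; positivity
  have hΛρ : Λ * ρ * (c / 4) = κ * r₀ * B := by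
    rw [hΛ]
    field_simp
  have hΛρB : Λ * ρ * B = κ * r₀ * (4 * B ^ 2 / c) := by
    rw [hΛ]
    field_simp
  -- the compact set of the points far from the subspace
  obtain ⟨Z, hZ⟩ : ∃ Z : Set (E d), Z = Metric.closedBall p₀ R ∩ {q | r₀ ≤ ‖L q‖} := ⟨_, rfl⟩
  have hZc : IsCompact Z := by
    rw [hZ]
    exact (isCompact_closedBall p₀ R).inter_right (isClosed_le continuous_const
      L.continuous.norm)
  have hZV : Z ⊆ V \ k := by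
    rw [hZ]
    rintro q ⟨h1, h2⟩
    refine ⟨hRV h1, fun h3 => ?_⟩
    rw [mem_ofPred_eq, hkL q (hRV h1) h3, norm_zero] at h2
    linarith
  obtain ⟨M₀, hM₀⟩ := hZc.exists_bound_of_continuousOn (hs.continuousOn.mono hZV)
  obtain ⟨M, hM⟩ : ∃ M : ℝ, M = max M₀ 0 := ⟨_, rfl⟩
  have hM0 : 0 ≤ M := by rw [hM]; exact le_max_right _ _
  have hMZ : ∀ q ∈ Z, ‖s q‖ ≤ M := fun q hq => (hM₀ q hq).trans (by rw [hM]; exact le_max_left _ _)
  obtain ⟨c₁, hc₁⟩ : ∃ c₁ : ℝ, c₁ = ρ ^ 2 * (c / 4) := ⟨_, rfl⟩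
  have hc₁0 : 0 < c₁ := by rw [hc₁]; positivity
  refine ⟨ρ • e₀, ρ • f₀, R / 4, c₁⁻¹ * (M * (R * R) * 4), by positivity, by positivity, ?_, ?_, ?_⟩
  · rw [map_smul, hLe, smul_zero]
  · rw [map_smul, hLJ, smul_zero]
  intro x hx hLx
  have hn : 0 < ‖L x‖ := norm_pos_iff.2 hLx
  obtain ⟨u, hu⟩ : ∃ u : E d, u = (r₀ / ‖L x‖) • g (L x) := ⟨_, rfl⟩
  have hun : ‖u‖ ≤ κ * r₀ := by
    rw [hu, norm_smul, Real.norm_of_nonneg (by positivity)]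
    calc r₀ / ‖L x‖ * ‖g (L x)‖ ≤ r₀ / ‖L x‖ * (κ * ‖L x‖) := by
          refine mul_le_mul_of_nonneg_left ?_ (by positivity)
          refine (g.le_opNorm _).trans (mul_le_mul_of_nonneg_right ?_ (norm_nonneg _))
          rw [hκ]
          linarith
      _ = κ * r₀ := by field_simp
  have hLu : L u = (r₀ / ‖L x‖) • L x := by rw [hu, map_smul, hg]
  have hLeρ : L (ρ • e₀) = 0 := by rw [map_smul, hLe, smul_zero]
  have hLfρ : L (ρ • f₀) = 0 := by rw [map_smul, hLJ, smul_zero]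
  -- the points of the frustum
  have hpt : ∀ t ∈ Icc (0 : ℝ) 1, ∀ a ∈ Icc (-1 : ℝ) 1, ∀ b ∈ Icc (-1 : ℝ) 1,
      x + t • u + (1 + Λ * t) • (a • (ρ • e₀) + b • (ρ • f₀)) ∈ Metric.closedBall p₀ R ∧
      ‖L (x + t • u + (1 + Λ * t) • (a • (ρ • e₀) + b • (ρ • f₀)))‖ = ‖L x‖ + t * r₀ := by
    intro t ht a ha b hb
    constructor
    · rw [Metric.mem_closedBall, dist_eq_norm]
      have e1 : x + t • u + (1 + Λ * t) • (a • (ρ • e₀) + b • (ρ • f₀)) - p₀ =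
          (x - p₀) + (t • u + (1 + Λ * t) • (a • (ρ • e₀) + b • (ρ • f₀))) := by abel
      have e2 : ‖t • u‖ ≤ κ * r₀ := by
        rw [norm_smul, Real.norm_of_nonneg ht.1]
        calc t * ‖u‖ ≤ 1 * ‖u‖ := mul_le_mul_of_nonneg_right ht.2 (norm_nonneg _)
          _ ≤ κ * r₀ := by rw [one_mul]; exact hun
      have e3 : ‖a • (ρ • e₀) + b • (ρ • f₀)‖ ≤ ρ * B := by
        refine (norm_add_le _ _).trans ?_
        rw [norm_smul a, norm_smul ρ, norm_smul b, norm_smul ρ, Real.norm_eq_abs a,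
          Real.norm_eq_abs b, Real.norm_of_nonneg hρ0.le]
        have h1 : |a| * (ρ * ‖e₀‖) ≤ 1 * (ρ * ‖e₀‖) :=
          mul_le_mul_of_nonneg_right (abs_le.2 ha) (by positivity)
        have h2 : |b| * (ρ * ‖f₀‖) ≤ 1 * (ρ * ‖f₀‖) :=
          mul_le_mul_of_nonneg_right (abs_le.2 hb) (by positivity)
        have h3 : ρ * B = ρ * ‖e₀‖ + ρ * ‖f₀‖ + ρ := by rw [hB]; ring
        linarith
      have e4 : ‖(1 + Λ * t) • (a • (ρ • e₀) + b • (ρ • f₀))‖ ≤ (1 + Λ) * (ρ * B) := by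
        have h0 : 0 ≤ Λ * t := mul_nonneg hΛ0 ht.1
        have h1 : 1 + Λ * t ≤ 1 + Λ := by nlinarith [ht.2]
        rw [norm_smul, Real.norm_of_nonneg (by linarith)]
        exact mul_le_mul h1 e3 (norm_nonneg _) (by linarith)
      have e5 : (1 + Λ) * (ρ * B) = R / 4 + κ * r₀ * (4 * B ^ 2 / c) := by
        rw [← hΛρB, ← hρB]
        ring
      have e6 : κ * r₀ + κ * r₀ * (4 * B ^ 2 / c) = R / 4 := by
        rw [← hr₀1]
        ring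
      rw [Metric.mem_ball, dist_eq_norm] at hx
      rw [e1]
      have h1 := norm_add_le (x - p₀) (t • u + (1 + Λ * t) • (a • (ρ • e₀) + b • (ρ • f₀)))
      have h2 := norm_add_le (t • u) ((1 + Λ * t) • (a • (ρ • e₀) + b • (ρ • f₀)))
      linarith
    · have h1 : L (x + t • u + (1 + Λ * t) • (a • (ρ • e₀) + b • (ρ • f₀))) =
          (1 + t * (r₀ / ‖L x‖)) • L x := by
        simp only [map_add, map_smul, hLe, hLJ, hLu, smul_zero, add_zero]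
        rw [smul_smul, add_smul, one_smul]
      have ht0 := ht.1
      rw [h1, norm_smul, Real.norm_of_nonneg (by positivity)]
      field_simp
  have hpk : ∀ t ∈ Icc (0 : ℝ) 1, ∀ a ∈ Icc (-1 : ℝ) 1, ∀ b ∈ Icc (-1 : ℝ) 1,
      x + t • u + (1 + Λ * t) • (a • (ρ • e₀) + b • (ρ • f₀)) ∉ k := by
    intro t ht a ha b hb h
    obtain ⟨h1, h2⟩ := hpt t ht a ha b hb
    rw [hkL _ (hRV h1) h, norm_zero] at h2
    have := mul_nonneg ht.1 hr₀0.le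
    linarith
  have hpl : ∀ p ∈ Metric.closedBall p₀ R \ k, c₁ * ‖s p‖ ≤ s p ![ρ • e₀, ρ • f₀] := by
    intro p hp
    rw [smul_pair, hc₁, mul_assoc]
    exact mul_le_mul_of_nonneg_left (hpl0 p hp) (by positivity)
  have hfr := frustum hVk hs hcl (y := x) (u := u) (e := ρ • e₀) (f := ρ • f₀) hΛ0
    (fun t ht a ha b hb => ⟨hRV (hpt t ht a ha b hb).1, hpk t ht a ha b hb⟩)
    (fun t ht a ha b hb => by
      obtain ⟨q, hq⟩ : ∃ q, q = x + t • u + (1 + Λ * t) • (a • (ρ • e₀) + b • (ρ • f₀)) := ⟨_, rfl⟩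
      have h1 := hpl0 q (by rw [hq]; exact ⟨(hpt t ht a ha b hb).1, hpk t ht a ha b hb⟩)
      rw [← hq]
      have h2 : Λ * (ρ ^ 2 * (c / 4 * ‖s q‖)) ≤ Λ * s q ![ρ • e₀, ρ • f₀] := by
        rw [smul_pair]
        exact mul_le_mul_of_nonneg_left (mul_le_mul_of_nonneg_left h1 (by positivity)) hΛ0
      have h3 : Λ * (ρ ^ 2 * (c / 4 * ‖s q‖)) = κ * r₀ * B * ρ * ‖s q‖ := by
        rw [← hΛρ]
        ring
      rw [h3] at h2
      have h4 : ∀ w : E d, ‖w‖ ≤ B → |s q ![u, ρ • w]| ≤ κ * r₀ * B * ρ * ‖s q‖ := by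
        intro w hw
        refine (two_b (s q) u (ρ • w)).trans ?_
        rw [norm_smul, Real.norm_of_nonneg hρ0.le]
        calc ‖s q‖ * (‖u‖ * (ρ * ‖w‖)) ≤ ‖s q‖ * ((κ * r₀) * (ρ * B)) := by gcongr
          _ = _ := by ring
      exact ⟨(h4 f₀ (by rw [hB]; linarith [norm_nonneg e₀])).trans h2,
        (h4 e₀ (by rw [hB]; linarith [norm_nonneg f₀])).trans h2⟩)
  -- the bound at the end
  have hend : HH s ((1 + Λ) • (ρ • e₀)) ((1 + Λ) • (ρ • f₀)) (x + u) ≤ M * (R * R) * 4 := by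
    have hb : ∀ w : E d, ‖w‖ ≤ B → ‖(1 + Λ) • (ρ • w)‖ ≤ R := by
      intro w hw
      rw [norm_smul, norm_smul, Real.norm_of_nonneg (by linarith : (0 : ℝ) ≤ 1 + Λ),
        Real.norm_of_nonneg hρ0.le]
      have h1 : (1 + Λ) * (ρ * ‖w‖) ≤ (1 + Λ) * (ρ * B) := by gcongr
      have e5 : (1 + Λ) * (ρ * B) = R / 4 + κ * r₀ * (4 * B ^ 2 / c) := by
        rw [← hΛρB, ← hρB]
        ring
      have e6 : κ * r₀ + κ * r₀ * (4 * B ^ 2 / c) = R / 4 := by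
        rw [← hr₀1]
        ring
      have e7 : 0 ≤ κ * r₀ := by positivity
      linarith
    have h1 : ∀ z ∈ SE.sq, ‖s (x + u + z 0 • ((1 + Λ) • (ρ • e₀)) + z 1 • ((1 + Λ) • (ρ • f₀)))
        ![(1 + Λ) • (ρ • e₀), (1 + Λ) • (ρ • f₀)]‖ ≤ M * (R * R) := by
      intro z hz
      obtain ⟨h0, h1⟩ := mem_sq hz
      have h2 : x + u + z 0 • ((1 + Λ) • (ρ • e₀)) + z 1 • ((1 + Λ) • (ρ • f₀)) =
          x + (1 : ℝ) • u + (1 + Λ * 1) • (z 0 • (ρ • e₀) + z 1 • (ρ • f₀)) := by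
        rw [one_smul, mul_one, smul_add, smul_comm (z 0) (1 + Λ), smul_comm (z 1) (1 + Λ), add_assoc]
      obtain ⟨h3, h4⟩ := hpt 1 (by simp) _ h0 _ h1
      rw [← h2] at h3 h4
      have h5 : ‖s (x + u + z 0 • ((1 + Λ) • (ρ • e₀)) + z 1 • ((1 + Λ) • (ρ • f₀)))‖ ≤ M := by
        apply hMZ
        rw [hZ]
        refine ⟨h3, ?_⟩
        rw [mem_ofPred_eq, h4]
        linarith
      rw [Real.norm_eq_abs]
      refine (two_b _ _ _).trans ?_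
      have h6 := hb e₀ (by rw [hB]; linarith [norm_nonneg f₀])
      have h7 := hb f₀ (by rw [hB]; linarith [norm_nonneg e₀])
      gcongr
    have h2 := norm_setIntegral_le_of_norm_le_const (μ := volume) (s := SE.sq)
      (by rw [SE.vol_sq]; exact ENNReal.ofNat_lt_top) h1
    have h3 : (volume : Measure (Fin 2 → ℝ)).real SE.sq = 4 := by
      rw [Measure.real, SE.vol_sq]
      simp
    rw [h3] at h2
    unfold HH
    refine le_trans (le_trans (le_abs_self _) ?_) h2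
    rw [Real.norm_eq_abs]
  have hin1 : ∀ z ∈ SE.sq, x + z 0 • (ρ • e₀) + z 1 • (ρ • f₀) ∈ Metric.closedBall p₀ R \ k := by
    intro z hz
    obtain ⟨h0, h1⟩ := mem_sq hz
    have h2 : x + z 0 • (ρ • e₀) + z 1 • (ρ • f₀) =
        x + (0 : ℝ) • u + (1 + Λ * 0) • (z 0 • (ρ • e₀) + z 1 • (ρ • f₀)) := by
      rw [zero_smul, mul_zero, add_zero, add_zero, one_smul, add_assoc]
    rw [h2]
    exact ⟨(hpt 0 (by simp) _ h0 _ h1).1, hpk 0 (by simp) _ h0 _ h1⟩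
  refine ⟨fun z hz => ⟨hRV (hin1 z hz).1, (hin1 z hz).2⟩, ?_⟩
  have hcont : ContinuousOn (fun z : Fin 2 → ℝ => s (x + z 0 • (ρ • e₀) + z 1 • (ρ • f₀))
      ![ρ • e₀, ρ • f₀]) SE.sq := by
    have h1 : ContinuousOn (fun z : Fin 2 → ℝ => s (x + z 0 • (ρ • e₀) + z 1 • (ρ • f₀))) SE.sq := by
      refine hs.continuousOn.comp (by fun_prop) fun z hz => ?_
      exact ⟨hRV (hin1 z hz).1, (hin1 z hz).2⟩
    exact (ContinuousAlternatingMap.apply ℝ (E d) ℝ ![ρ • e₀, ρ • f₀]).continuous.comp_continuousOn h1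
  have hint : IntegrableOn (fun z : Fin 2 → ℝ => s (x + z 0 • (ρ • e₀) + z 1 • (ρ • f₀))
      ![ρ • e₀, ρ • f₀]) SE.sq := hcont.integrableOn_compact isCompact_Icc
  have hnn : 0 ≤ᵐ[volume.restrict SE.sq] fun z : Fin 2 → ℝ =>
      s (x + z 0 • (ρ • e₀) + z 1 • (ρ • f₀)) ![ρ • e₀, ρ • f₀] := by
    refine (ae_restrict_iff' measurableSet_Icc).2 (Eventually.of_forall fun z hz => ?_)
    have h1 := hpl _ (hin1 z hz)
    have h2 : 0 ≤ c₁ * ‖s (x + z 0 • (ρ • e₀) + z 1 • (ρ • f₀))‖ := by positivity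
    exact h2.trans h1
  have h5 : ENNReal.ofReal (HH s (ρ • e₀) (ρ • f₀) x) = ∫⁻ z in SE.sq, ENNReal.ofReal
      (s (x + z 0 • (ρ • e₀) + z 1 • (ρ • f₀)) ![ρ • e₀, ρ • f₀]) :=
    ofReal_integral_eq_lintegral_ofReal hint hnn
  calc ∫⁻ z in SE.sq, ‖s (x + z 0 • (ρ • e₀) + z 1 • (ρ • f₀))‖ₑ
      ≤ ∫⁻ z in SE.sq, ENNReal.ofReal c₁⁻¹ *
        ENNReal.ofReal (s (x + z 0 • (ρ • e₀) + z 1 • (ρ • f₀)) ![ρ • e₀, ρ • f₀]) := by
        refine setLIntegral_mono' measurableSet_Icc fun z hz => ?_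
        have h2 := hpl _ (hin1 z hz)
        rw [← ofReal_norm, ← ENNReal.ofReal_mul (by positivity)]
        apply ENNReal.ofReal_le_ofReal
        rw [inv_mul_eq_div, le_div_iff₀ hc₁0, mul_comm]
        exact h2
    _ = ENNReal.ofReal c₁⁻¹ * ENNReal.ofReal (HH s (ρ • e₀) (ρ • f₀) x) := by
        rw [lintegral_const_mul' _ _ ENNReal.ofReal_ne_top, h5]
    _ ≤ ENNReal.ofReal c₁⁻¹ * ENNReal.ofReal (M * (R * R) * 4) := by
        gcongr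
        exact hfr.trans hend
    _ = _ := by rw [← ENNReal.ofReal_mul (by positivity)]

end Pool.Agent.U896.SF
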