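import Pool.Agent.U896.SF.Thin
import Pool.Agent.Y604.SY.Pull

/-!
# Bounded eccentricity: the mass near a submanifold
-/

set_option autoImplicit false

open Set Filter Topology MeasureTheory
open scoped Manifold ContDiff

noncomputable section

namespace Pool.Agent.U896.SF

open Pool.Agent.Y501.SY (E)
open Pool.Agent.Y515.SY (Al comp_norm ind_sm)
open Pool.Agent.U896
open Pool.Agent.U896.SE (HH smul_pair two_b pos_near mem_sq)

/-- Near the point `p` of `V`, the set `k` is contained in the fibre over `0` of a smooth submersion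
to `ℝ ^ m` such that the kernel of its derivative at `p` contains a line which is complex for the
value of `Js` at `p`. -/
def InSub {d : ℕ} (m : ℕ) (Js : E d → (E d →L[ℝ] E d)) (k : Set (E d)) (p : E d) : Prop :=
  ∃ (N : Set (E d)) (g : E d → (Fin m → ℝ)) (e : E d), IsOpen N ∧ p ∈ N ∧ ContDiffOn ℝ ∞ g N ∧
    Function.Surjective (fderiv ℝ g p) ∧ (∀ x ∈ N, x ∈ k → g x = 0) ∧ e ≠ 0 ∧
    fderiv ℝ g p e = 0 ∧ fderiv ℝ g p (Js p e) = 0

theorem near_sub {d m : ℕ} (hm : 0 < m) {V k : Set (E d)} (hV : IsOpen V) (hVk : IsOpen (V \ k))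
    {s : E d → Al d 2} (hs : ContDiffOn ℝ ∞ s (V \ k)) (hcl : ∀ p ∈ V \ k, extDeriv s p = 0)
    {Js : E d → (E d →L[ℝ] E d)} (hJ : ContinuousOn Js V) {c : ℝ} (hc : 0 < c)
    (hpos : ∀ p ∈ V \ k, ∀ v : E d, c * ‖s p‖ * ‖v‖ ^ 2 ≤ s p ![v, Js p v])
    {p₀ : E d} (hp₀ : p₀ ∈ V) (hk₀ : p₀ ∈ k) {N : Set (E d)} {g : E d → (Fin m → ℝ)} {e₀ : E d}
    (hN : IsOpen N) (hpN : p₀ ∈ N) (hg : ContDiffOn ℝ ∞ g N)
    (hgs : Function.Surjective (fderiv ℝ g p₀)) (hgk : ∀ x ∈ N, x ∈ k → g x = 0) (he : e₀ ≠ 0)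
    (hge : fderiv ℝ g p₀ e₀ = 0) (hgJ : fderiv ℝ g p₀ (Js p₀ e₀) = 0) :
    ∃ r C : ℝ, 0 < r ∧ 0 ≤ C ∧ Metric.ball p₀ r ⊆ N ∩ V ∧
      volume (k ∩ Metric.ball p₀ r) = 0 ∧ ∀ δ : ℝ, 0 < δ →
      ∫⁻ p in (Metric.ball p₀ r ∩ {x | ‖g x‖ < δ}) \ k, ‖s p‖ₑ ≤ ENNReal.ofReal (C * δ ^ m) := by
  obtain ⟨L, hL⟩ : ∃ L, L = fderiv ℝ g p₀ := ⟨_, rfl⟩
  rw [← hL] at hgs hge hgJ
  obtain ⟨R, hR⟩ := right_inv L hgs
  obtain ⟨ψ, hψ⟩ : ∃ ψ : E d → E d, ψ = fun x => x + R (g x - L x) := ⟨_, rfl⟩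
  have hψs : ContDiffOn ℝ ∞ ψ N := by
    rw [hψ]
    exact contDiffOn_id.add (R.contDiff.comp_contDiffOn (hg.sub L.contDiff.contDiffOn))
  have hLψ : ∀ x, L (ψ x) = g x := by
    intro x
    rw [hψ]
    change L (x + R (g x - L x)) = g x
    rw [map_add, hR, add_sub_cancel]
  obtain ⟨D, hD⟩ : ∃ D : E d → (E d →L[ℝ] E d), D = fderiv ℝ ψ := ⟨_, rfl⟩
  have hgd : ∀ x ∈ N, HasFDerivAt g (fderiv ℝ g x) x := fun x hx =>
    ((hg.contDiffAt (hN.mem_nhds hx)).differentiableAt (by simp)).hasFDerivAt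
  have hDd : ∀ x ∈ N, HasFDerivAt ψ (D x) x := fun x hx => by
    rw [hD]
    exact ((hψs.contDiffAt (hN.mem_nhds hx)).differentiableAt (by simp)).hasFDerivAt
  have hD₀ : D p₀ = ContinuousLinearMap.id ℝ (E d) := by
    have h1 : HasFDerivAt ψ (ContinuousLinearMap.id ℝ (E d) + R.comp (L - L)) p₀ := by
      rw [hψ, hL]
      exact (hasFDerivAt_id p₀).add (R.hasFDerivAt.comp p₀
        ((hgd p₀ hpN).sub (fderiv ℝ g p₀).hasFDerivAt))
    rw [(hDd p₀ hpN).unique h1, sub_self, ContinuousLinearMap.comp_zero, add_zero]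
  have hDc : ContinuousOn D N := by
    rw [hD]
    exact hψs.continuousOn_fderiv_of_isOpen hN (by simp)
  have hψat : ContDiffAt ℝ ∞ ψ p₀ := hψs.contDiffAt (hN.mem_nhds hpN)
  have hψ₀ : HasFDerivAt ψ ((ContinuousLinearEquiv.refl ℝ (E d) : E d ≃L[ℝ] E d) : E d →L[ℝ] E d)
      p₀ := by
    have h1 := hDd p₀ hpN
    rw [hD₀] at h1
    exact h1
  obtain ⟨h, hh⟩ : ∃ h, h = hψat.toOpenPartialHomeomorph ψ hψ₀ (by simp) := ⟨_, rfl⟩
  have hcoe : ∀ x, h x = ψ x := fun x => by rw [hh]; rfl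
  have hsrc : p₀ ∈ h.source := by
    rw [hh]
    exact hψat.mem_toOpenPartialHomeomorph_source hψ₀ (by simp)
  have hev : ∀ᶠ x in 𝓝 p₀, (x ∈ N ∧ x ∈ V ∧ x ∈ h.source) ∧
      ‖D x - ContinuousLinearMap.id ℝ (E d)‖ < 1 / 2 ∧ 1 / 2 < |(D x).det| := by
    have hDat : ContinuousAt D p₀ := hDc.continuousAt (hN.mem_nhds hpN)
    refine Filter.Eventually.and (Filter.Eventually.and (hN.mem_nhds hpN)
      (Filter.Eventually.and (hV.mem_nhds hp₀) (h.open_source.mem_nhds hsrc)))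
      (Filter.Eventually.and ?_ ?_)
    · have h1 : ContinuousAt (fun x => ‖D x - ContinuousLinearMap.id ℝ (E d)‖) p₀ :=
        (hDat.sub continuousAt_const).norm
      refine h1.eventually_lt_const ?_
      change ‖D p₀ - ContinuousLinearMap.id ℝ (E d)‖ < 1 / 2
      rw [hD₀, sub_self, norm_zero]
      norm_num
    · have h1 : ContinuousAt (fun x => |(D x).det|) p₀ :=
        (ContinuousLinearMap.continuous_det.continuousAt.comp hDat).abs
      refine h1.eventually_const_lt ?_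
      change 1 / 2 < |(D p₀).det|
      rw [hD₀]
      have : (ContinuousLinearMap.id ℝ (E d)).det = 1 := LinearMap.det_id
      rw [this]
      norm_num
  obtain ⟨r₁, hr₁, hball⟩ := Metric.eventually_nhds_iff_ball.1 hev
  obtain ⟨B₁, hB₁⟩ : ∃ B₁ : Set (E d), B₁ = Metric.ball p₀ r₁ := ⟨_, rfl⟩
  rw [← hB₁] at hball
  have hB₁o : IsOpen B₁ := by rw [hB₁]; exact Metric.isOpen_ball
  have hpB : p₀ ∈ B₁ := by rw [hB₁]; exact Metric.mem_ball_self hr₁
  obtain ⟨V', hV'⟩ : ∃ V' : Set (E d), V' = h.target ∩ h.symm ⁻¹' B₁ := ⟨_, rfl⟩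
  have hV'o : IsOpen V' := by rw [hV']; exact h.isOpen_inter_preimage_symm hB₁o
  have hdet : ∀ x ∈ B₁, (D x).det ≠ 0 := by
    intro x hx h0
    have := (hball x hx).2.2
    rw [h0, abs_zero] at this
    linarith
  let eq' : ∀ x, x ∈ B₁ → (E d ≃L[ℝ] E d) := fun x hx =>
    (D x).toContinuousLinearEquivOfDetNeZero (hdet x hx)
  have heq' : ∀ x (hx : x ∈ B₁), ((eq' x hx : E d ≃L[ℝ] E d) : E d →L[ℝ] E d) = D x := fun x hx =>
    (D x).coe_toContinuousLinearEquivOfDetNeZero (hdet x hx)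
  have hyx : ∀ y ∈ V', h.symm y ∈ B₁ ∧ y ∈ h.target ∧ ψ (h.symm y) = y := by
    intro y hy
    rw [hV'] at hy
    refine ⟨hy.2, hy.1, ?_⟩
    rw [← hcoe]
    exact h.right_inv hy.1
  obtain ⟨A, hA⟩ : ∃ A : E d → (E d →L[ℝ] E d), A = fderiv ℝ h.symm := ⟨_, rfl⟩
  have hAd : ∀ y (hy : y ∈ V'), HasFDerivAt h.symm
      (((eq' (h.symm y) (hyx y hy).1).symm : E d ≃L[ℝ] E d) : E d →L[ℝ] E d) y := by
    intro y hy
    obtain ⟨h1, h2, h3⟩ := hyx y hy
    refine h.hasFDerivAt_symm h2 ?_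
    rw [heq' _ h1]
    have h4 : (h : E d → E d) = ψ := funext hcoe
    rw [h4]
    exact hDd _ (hball _ h1).1.1
  have hAe : ∀ y (hy : y ∈ V'), A y =
      (((eq' (h.symm y) (hyx y hy).1).symm : E d ≃L[ℝ] E d) : E d →L[ℝ] E d) := by
    intro y hy
    rw [hA]
    exact (hAd y hy).fderiv
  have hDA : ∀ y ∈ V', ∀ v, D (h.symm y) (A y v) = v := by
    intro y hy v
    rw [hAe y hy, ← heq' _ (hyx y hy).1]
    exact (eq' (h.symm y) (hyx y hy).1).apply_symm_apply v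
  have hAD : ∀ y ∈ V', ∀ v, A y (D (h.symm y) v) = v := by
    intro y hy v
    rw [hAe y hy, ← heq' _ (hyx y hy).1]
    exact (eq' (h.symm y) (hyx y hy).1).symm_apply_apply v
  have hDn : ∀ x ∈ B₁, ∀ v, ‖v‖ / 2 ≤ ‖D x v‖ ∧ ‖D x v‖ ≤ 2 * ‖v‖ := by
    intro x hx v
    have h1 := (hball x hx).2.1
    have h2 : ‖(D x - ContinuousLinearMap.id ℝ (E d)) v‖ ≤ 1 / 2 * ‖v‖ :=
      (ContinuousLinearMap.le_opNorm _ _).trans
        (mul_le_mul_of_nonneg_right h1.le (norm_nonneg _))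
    have h3 : (D x - ContinuousLinearMap.id ℝ (E d)) v = D x v - v := rfl
    rw [h3] at h2
    have h4 := norm_sub_norm_le v (D x v)
    rw [norm_sub_rev] at h4
    have h5 := norm_sub_norm_le (D x v) v
    have h6 := norm_nonneg v
    constructor <;> linarith
  have hAn : ∀ y ∈ V', ∀ v, ‖A y v‖ ≤ 2 * ‖v‖ := by
    intro y hy v
    have h1 := (hDn _ (hyx y hy).1 (A y v)).1
    rw [hDA y hy] at h1
    linarith
  have hAo : ∀ y ∈ V', ‖A y‖ ≤ 2 := fun y hy =>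
    ContinuousLinearMap.opNorm_le_bound _ (by norm_num) (hAn y hy)
  have hDo : ∀ x ∈ B₁, ‖D x‖ ≤ 2 := fun x hx =>
    ContinuousLinearMap.opNorm_le_bound _ (by norm_num) fun v => (hDn x hx v).2
  -- smoothness of the inverse
  have hsymm : ContDiffOn ℝ ∞ h.symm V' := by
    intro y hy
    obtain ⟨h1, h2, h3⟩ := hyx y hy
    have h4 : (h : E d → E d) = ψ := funext hcoe
    refine ContDiffAt.contDiffWithinAt (h.contDiffAt_symm (f₀' := eq' _ h1) h2 ?_ ?_)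
    · rw [heq' _ h1, h4]
      exact hDd _ (hball _ h1).1.1
    · rw [h4]
      exact hψs.contDiffAt (hN.mem_nhds (hball _ h1).1.1)
  have hAc : ContDiffOn ℝ ∞ A V' := by
    rw [hA]
    exact hsymm.fderiv_of_isOpen hV'o (by simp)
  -- the form in the straightened chart
  obtain ⟨k', hk'⟩ : ∃ k' : Set (E d), k' = h.symm ⁻¹' k := ⟨_, rfl⟩
  have hV'k : V' \ k' = h.target ∩ h.symm ⁻¹' (B₁ ∩ (V \ k)) := by
    rw [hV', hk']
    ext y
    constructor
    · rintro ⟨⟨h1, h2⟩, h3⟩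
      exact ⟨h1, h2, (hball _ h2).1.2.1, h3⟩
    · rintro ⟨h1, h2, h3, h4⟩
      exact ⟨⟨h1, h2⟩, h4⟩
  have hV'ko : IsOpen (V' \ k') := by
    rw [hV'k]
    exact h.isOpen_inter_preimage_symm (hB₁o.inter hVk)
  obtain ⟨s', hs'⟩ : ∃ s' : E d → Al d 2, s' = fun y =>
      (s (h.symm y)).compContinuousLinearMap (fderiv ℝ h.symm y) := ⟨_, rfl⟩
  have hin : ∀ y ∈ V' \ k', h.symm y ∈ V \ k := by
    intro y hy
    rw [hV'k] at hy
    exact hy.2.2
  have hs's : ContDiffOn ℝ ∞ s' (V' \ k') := by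
    intro y hy
    rw [hs']
    have h1 : ContDiffAt ℝ ∞ s (h.symm y) := hs.contDiffAt (hVk.mem_nhds (hin y hy))
    have h2 : ContDiffAt ℝ ∞ h.symm y := hsymm.contDiffAt (hV'o.mem_nhds hy.1)
    have h3 : ContDiffAt ℝ ∞ (fun y => (s (h.symm y), fderiv ℝ h.symm y)) y := by
      refine (h1.comp y h2).prodMk ?_
      rw [← hA]
      exact hAc.contDiffAt (hV'o.mem_nhds hy.1)
    exact (Pool.Agent.Y604.SY.contDiff_pull.contDiffAt.comp y h3).contDiffWithinAt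
  have hcl' : ∀ y ∈ V' \ k', extDeriv s' y = 0 := by
    intro y hy
    have h1 : DifferentiableAt ℝ s (h.symm y) :=
      (hs.contDiffAt (hVk.mem_nhds (hin y hy))).differentiableAt (by simp)
    have h2 : ContDiffAt ℝ ∞ h.symm y := hsymm.contDiffAt (hV'o.mem_nhds hy.1)
    have h3 := extDeriv_pullback h1 h2 (by
      rw [minSmoothness_of_isRCLikeNormedField]
      exact WithTop.coe_le_coe.2 (le_top (a := (2 : ℕ∞))))
    rw [hs', h3, hcl _ (hin y hy)]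
    rfl
  obtain ⟨J', hJ'⟩ : ∃ J' : E d → (E d →L[ℝ] E d), J' = fun y =>
      (D (h.symm y)).comp ((Js (h.symm y)).comp (A y)) := ⟨_, rfl⟩
  have hsc : ContinuousOn h.symm V' := hsymm.continuousOn
  have hJ'c : ContinuousOn J' V' := by
    rw [hJ']
    refine ContinuousOn.clm_comp (hDc.comp hsc fun y hy => (hball _ (hyx y hy).1).1.1)
      (ContinuousOn.clm_comp (hJ.comp hsc fun y hy => (hball _ (hyx y hy).1).1.2.1)
        hAc.continuousOn)
  have hpos' : ∀ y ∈ V' \ k', ∀ v : E d, c / 16 * ‖s' y‖ * ‖v‖ ^ 2 ≤ s' y ![v, J' y v] := by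
    intro y hy v
    have h1 := hpos _ (hin y hy) (A y v)
    have h2 : s' y ![v, J' y v] = s (h.symm y) ![A y v, Js (h.symm y) (A y v)] := by
      have h3 : s' y ![v, J' y v] = s (h.symm y) (fun i => fderiv ℝ h.symm y (![v, J' y v] i)) := by
        rw [hs']
        rfl
      rw [h3]
      congr 1
      funext i
      fin_cases i
      · change fderiv ℝ h.symm y v = A y v
        rw [hA]
      · change fderiv ℝ h.symm y (J' y v) = Js (h.symm y) (A y v)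
        rw [← hA, hJ']
        exact hAD y hy.1 _
    rw [h2]
    refine le_trans ?_ h1
    have h3 : ‖s' y‖ ≤ ‖s (h.symm y)‖ * 2 ^ 2 := by
      rw [hs']
      refine (comp_norm _ _).trans ?_
      rw [← hA]
      have := hAo y hy.1
      gcongr
    have h4 : ‖v‖ ≤ 2 * ‖A y v‖ := by
      have h5 := (hDn _ (hyx y hy.1).1 (A y v)).2
      rwa [hDA y hy.1] at h5
    have h5 : ‖v‖ ^ 2 ≤ (2 * ‖A y v‖) ^ 2 := pow_le_pow_left₀ (norm_nonneg _) h4 2
    calc c / 16 * ‖s' y‖ * ‖v‖ ^ 2 ≤ c / 16 * (‖s (h.symm y)‖ * 2 ^ 2) * (2 * ‖A y v‖) ^ 2 := by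
          gcongr
      _ = c * ‖s (h.symm y)‖ * ‖A y v‖ ^ 2 := by ring
  -- the point
  obtain ⟨q₀, hq₀⟩ : ∃ q₀, q₀ = ψ p₀ := ⟨_, rfl⟩
  have hq₀V : q₀ ∈ V' := by
    rw [hV', hq₀, ← hcoe]
    refine ⟨h.map_source hsrc, ?_⟩
    rw [mem_preimage, h.left_inv hsrc]
    exact hpB
  have hsq₀ : h.symm q₀ = p₀ := by rw [hq₀, ← hcoe, h.left_inv hsrc]
  have hLq₀ : L q₀ = 0 := by rw [hq₀, hLψ, hgk p₀ hpN hk₀]
  have hJq₀ : J' q₀ = Js p₀ := by
    have h1 : A q₀ = ContinuousLinearMap.id ℝ (E d) := by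
      apply ContinuousLinearMap.ext
      intro v
      have h2 := hDA q₀ hq₀V v
      rw [hsq₀, hD₀] at h2
      exact h2
    rw [hJ']
    change (D (h.symm q₀)).comp ((Js (h.symm q₀)).comp (A q₀)) = Js p₀
    rw [h1, hsq₀, hD₀]
    rfl
  obtain ⟨e₁, he₁⟩ : ∃ e₁ : E d, e₁ = ‖e₀‖⁻¹ • e₀ := ⟨_, rfl⟩
  have hn₁ : ‖e₁‖ = 1 := by
    rw [he₁, norm_smul, norm_inv, norm_norm, inv_mul_cancel₀ (norm_ne_zero_iff.2 he)]
  obtain ⟨e, f, r, C, hr, hC, hLe, hLf, hsl⟩ := slice hV'o hV'ko hgs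
    (fun y hy hyk => by
      obtain ⟨h1, h2, h3⟩ := hyx y hy
      rw [← h3, hLψ]
      rw [hk'] at hyk
      exact hgk _ (hball _ h1).1.1 hyk)
    hs's hcl' hJ'c (by positivity : 0 < c / 16) hpos' hq₀V hn₁
    (by rw [he₁, map_smul, hge, smul_zero])
    (by rw [hJq₀, he₁, map_smul, map_smul, hgJ, smul_zero])
  obtain ⟨Φ, hΦ⟩ : ∃ Φ : E d → Al d 2, Φ = (V' \ k').indicator s' := ⟨_, rfl⟩
  obtain ⟨C', hC', hthin⟩ := thin hm (Φ := Φ) (by rw [hΦ]; exact ind_sm hV'ko hs's) hgs hLe hLf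
    hLq₀ hr hC (by
      intro y hy hLy
      obtain ⟨h1, h2⟩ := hsl y hy hLy
      refine le_trans (le_of_eq ?_) h2
      refine setLIntegral_congr_fun measurableSet_Icc fun z hz => ?_
      rw [hΦ]
      simp only [indicator_of_mem (h1 z hz)])
  -- back to the original chart
  have hψc : ContinuousAt ψ p₀ := hψat.continuousAt
  obtain ⟨r₂, hr₂, hr₂'⟩ := Metric.continuousAt_iff.1 hψc (r / 2) (by positivity)
  obtain ⟨r₃, hr₃⟩ : ∃ r₃ : ℝ, r₃ = min r₁ r₂ := ⟨_, rfl⟩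
  have hr₃0 : 0 < r₃ := by rw [hr₃]; exact lt_min hr₁ hr₂
  have hr₃B : Metric.ball p₀ r₃ ⊆ B₁ := by
    rw [hB₁, hr₃]
    exact Metric.ball_subset_ball (min_le_left _ _)
  have hnull : volume (k ∩ Metric.ball p₀ r₃) = 0 := by
    obtain ⟨T, hT⟩ : ∃ T : Set (E d), T = ψ '' (k ∩ Metric.ball p₀ r₃) := ⟨_, rfl⟩
    have hTV : T ⊆ V' := by
      rw [hT]
      rintro _ ⟨x, hx, rfl⟩
      have h1 := hball x (hr₃B hx.2)
      rw [hV', ← hcoe]
      refine ⟨h.map_source h1.1.2.2, ?_⟩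
      rw [mem_preimage, h.left_inv h1.1.2.2]
      exact hr₃B hx.2
    have hT0 : volume T = 0 := by
      have h1 : T ⊆ {y | L y = 0} := by
        rw [hT]
        rintro _ ⟨x, hx, rfl⟩
        rw [mem_ofPred_eq, hLψ]
        exact hgk x (hball x (hr₃B hx.2)).1.1 hx.1
      have h2 : volume {y : E d | L y = 0} = 0 := by
        have h3 : ∀ᵐ w : Fin m → ℝ, w ∈ ({0}ᶜ : Set (Fin m → ℝ)) := by
          have : Nonempty (Fin m) := ⟨⟨0, hm⟩⟩
          have h2 : volume ({0} : Set (Fin m → ℝ)) = 0 := measure_singleton _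
          exact compl_mem_ae_iff.2 h2
        have h4 : ∀ᵐ y : E d, L y ∈ ({0}ᶜ : Set (Fin m → ℝ)) :=
          (ae_comp_linearMap_mem_iff (L := (L : E d →ₗ[ℝ] (Fin m → ℝ))) volume volume hgs
            (measurableSet_singleton _).compl).2 h3
        rw [ae_iff] at h4
        simpa using h4
      exact measure_mono_null h1 h2
    have h1 : k ∩ Metric.ball p₀ r₃ ⊆ h.symm '' T := by
      intro x hx
      refine ⟨ψ x, ?_, ?_⟩
      · rw [hT]
        exact ⟨x, hx, rfl⟩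
      · rw [← hcoe]
        exact h.left_inv (hball x (hr₃B hx.2)).1.2.2
    refine measure_mono_null h1 ?_
    refine addHaar_image_eq_zero_of_differentiableOn_of_addHaar_eq_zero volume ?_ hT0
    exact (hsymm.differentiableOn (by simp)).mono hTV
  refine ⟨r₃, 8 * C', hr₃0, by positivity, fun x hx => ⟨(hball x (hr₃B hx)).1.1,
    (hball x (hr₃B hx)).1.2.1⟩, hnull, fun δ hδ => ?_⟩
  obtain ⟨S, hS⟩ : ∃ S : Set (E d), S = (Metric.ball p₀ r₃ ∩ {x | ‖g x‖ < δ}) \ k := ⟨_, rfl⟩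
  rw [← hS]
  have hSo : IsOpen S := by
    have h1 : S = (Metric.ball p₀ r₃ ∩ (fun x => ‖g x‖) ⁻¹' Iio δ) ∩ (V \ k) := by
      rw [hS]
      ext x
      constructor
      · rintro ⟨⟨h1, h2⟩, h3⟩
        exact ⟨⟨h1, h2⟩, (hball x (hr₃B h1)).1.2.1, h3⟩
      · rintro ⟨⟨h1, h2⟩, h3, h4⟩
        exact ⟨⟨h1, h2⟩, h4⟩
    rw [h1]
    refine IsOpen.inter ?_ hVk
    refine ContinuousOn.isOpen_inter_preimage ?_ Metric.isOpen_ball isOpen_Iio
    exact (hg.continuousOn.mono fun x hx => (hball x (hr₃B hx)).1.1).norm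
  have hSB : ∀ x ∈ S, x ∈ B₁ ∧ x ∉ k ∧ ‖g x‖ < δ ∧ x ∈ Metric.ball p₀ r₃ := by
    intro x hx
    rw [hS] at hx
    exact ⟨hr₃B hx.1.1, hx.2, hx.1.2, hx.1.1⟩
  have hψV : ∀ x ∈ S, ψ x ∈ V' \ k' ∧ h.symm (ψ x) = x := by
    intro x hx
    obtain ⟨h1, h2, h3, h4⟩ := hSB x hx
    have h5 : h.symm (ψ x) = x := by rw [← hcoe]; exact h.left_inv (hball x h1).1.2.2
    refine ⟨⟨?_, ?_⟩, h5⟩
    · rw [hV']
      refine ⟨?_, ?_⟩
      · rw [← hcoe]
        exact h.map_source (hball x h1).1.2.2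
      · rw [mem_preimage, h5]
        exact h1
    · rw [hk', mem_preimage, h5]
      exact h2
  have hsx : ∀ x ∈ S, ‖s x‖ ≤ 4 * ‖Φ (ψ x)‖ := by
    intro x hx
    obtain ⟨h1, h2⟩ := hψV x hx
    have h3 : Φ (ψ x) = s' (ψ x) := by rw [hΦ, indicator_of_mem h1]
    have h4 : s x = (s' (ψ x)).compContinuousLinearMap (D x) := by
      apply ContinuousAlternatingMap.ext
      intro v
      have h5 : (s' (ψ x)).compContinuousLinearMap (D x) v =
          s (h.symm (ψ x)) (fun i => A (ψ x) (D x (v i))) := by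
        rw [hs', hA]
        rfl
      rw [h5, h2]
      congr 1
      funext i
      have h6 := hAD (ψ x) h1.1 (v i)
      rw [h2] at h6
      exact h6.symm
    rw [h4, h3]
    refine (comp_norm _ _).trans ?_
    have h5 := hDo x (hSB x hx).1
    have h6 : ‖D x‖ ^ 2 ≤ 2 ^ 2 := pow_le_pow_left₀ (norm_nonneg _) h5 2
    have h7 := norm_nonneg (s' (ψ x))
    nlinarith
  have hinj : InjOn ψ S := by
    intro x hx y hy hxy
    rw [← (hψV x hx).2, ← (hψV y hy).2, hxy]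
  calc ∫⁻ p in S, ‖s p‖ₑ
      ≤ ∫⁻ p in S, ENNReal.ofReal 8 * (ENNReal.ofReal |(D p).det| * ‖Φ (ψ p)‖ₑ) := by
        refine setLIntegral_mono' hSo.measurableSet fun x hx => ?_
        rw [← ofReal_norm, ← ofReal_norm, ← ENNReal.ofReal_mul (abs_nonneg _),
          ← ENNReal.ofReal_mul (by norm_num)]
        apply ENNReal.ofReal_le_ofReal
        have h1 := hsx x hx
        have h2 := (hball x (hSB x hx).1).2.2
        have h3 := norm_nonneg (Φ (ψ x))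
        nlinarith
    _ = ENNReal.ofReal 8 * ∫⁻ p in ψ '' S, ‖Φ p‖ₑ := by
        rw [lintegral_const_mul' _ _ ENNReal.ofReal_ne_top,
          lintegral_image_eq_lintegral_abs_det_fderiv_mul volume hSo.measurableSet
          (fun x hx => (hDd x (hball x (hSB x hx).1).1.1).hasFDerivWithinAt) hinj]
    _ ≤ ENNReal.ofReal 8 * ENNReal.ofReal (C' * δ ^ m) := by
        refine mul_le_mul_right ?_ _
        refine (lintegral_mono_set ?_).trans (hthin δ hδ)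
        rintro _ ⟨x, hx, rfl⟩
        obtain ⟨h1, h2, h3, h4⟩ := hSB x hx
        refine ⟨?_, ?_⟩
        · rw [← hq₀] at hr₂'
          refine hr₂' (lt_of_lt_of_le h4 ?_)
          rw [hr₃]
          exact min_le_right _ _
        · rw [mem_ofPred_eq, hLψ]
          exact h3
    _ = ENNReal.ofReal (8 * C' * δ ^ m) := by
        rw [← ENNReal.ofReal_mul (by norm_num), mul_assoc]

end Pool.Agent.U896.SF
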