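import Pool.Agent.U896.SF.Slice

/-!
# Bounded eccentricity: the mass near a subspace
-/

set_option autoImplicit false

open Set Filter Topology MeasureTheory
open scoped Manifold ContDiff

noncomputable section

namespace Pool.Agent.U896.SF

open Pool.Agent.Y501.SY (E)
open Pool.Agent.Y515.SY (Al)
open Pool.Agent.U896
open Pool.Agent.U896.SE (HH smul_pair two_b pos_near mem_sq)

/-- the volume of thin neighbourhoods of a subspace -/
theorem vol_thin {d m : ℕ} (L : E d →L[ℝ] (Fin m → ℝ)) (hL : Function.Surjective L)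
    (p₀ : E d) (R : ℝ) (hp : L p₀ = 0) :
    ∃ C : ℝ, 0 ≤ C ∧ ∀ δ : ℝ, 0 < δ →
      volume (Metric.ball p₀ R ∩ {x | ‖L x‖ < δ}) ≤ ENNReal.ofReal (C * δ ^ m) := by
  obtain ⟨g, hg⟩ := right_inv L hL
  let K : Submodule ℝ (E d) := LinearMap.ker (L : E d →ₗ[ℝ] (Fin m → ℝ))
  let N : E d →ₗ[ℝ] K := LinearMap.codRestrict K
    (LinearMap.id - (g : (Fin m → ℝ) →ₗ[ℝ] E d).comp (L : E d →ₗ[ℝ] (Fin m → ℝ))) (by
      intro x
      change L (x - g (L x)) = 0
      rw [map_sub, hg, sub_self])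
  let T : E d →ₗ[ℝ] (Fin m → ℝ) × K := (L : E d →ₗ[ℝ] (Fin m → ℝ)).prod N
  have hN : ∀ x, ((N x : K) : E d) = x - g (L x) := fun x => rfl
  have hTs : Function.Surjective T := by
    rintro ⟨w, v⟩
    refine ⟨g w + v, ?_⟩
    have h1 : L (g w + v) = w := by
      rw [map_add, hg]
      have : L (v : E d) = 0 := v.2
      rw [this, add_zero]
    apply Prod.ext
    · exact h1
    · apply Subtype.ext
      change g w + v - g (L (g w + v)) = v
      rw [h1, add_sub_cancel_left]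
  obtain ⟨c, -, hc⟩ := T.exists_map_addHaar_eq_smul_addHaar (volume : Measure (E d))
    ((volume : Measure (Fin m → ℝ)).prod (Measure.addHaar : Measure K)) hTs
  obtain ⟨R', hR'⟩ : ∃ R' : ℝ, R' = (1 + ‖g‖ * ‖L‖) * R + 1 := ⟨_, rfl⟩
  have hTm : Measurable T := T.continuous_of_finiteDimensional.measurable
  have key : ∀ δ : ℝ, 0 < δ → volume (T ⁻¹' (Metric.ball 0 δ ×ˢ Metric.ball (N p₀) R')) =
      ENNReal.ofReal (δ ^ m) * (c * (ENNReal.ofReal (2 ^ m) *
        (Measure.addHaar : Measure K) (Metric.ball (N p₀) R'))) := by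
    intro δ hδ
    rw [← Measure.map_apply hTm (Metric.isOpen_ball.measurableSet.prod
      Metric.isOpen_ball.measurableSet), hc, Measure.smul_apply, Measure.prod_prod,
      Real.volume_pi_ball _ hδ, Fintype.card_fin, smul_eq_mul]
    have h1 : (2 * δ) ^ m = δ ^ m * 2 ^ m := by rw [mul_pow, mul_comm]
    rw [h1, ENNReal.ofReal_mul (by positivity)]
    ring
  obtain ⟨v, hv⟩ : ∃ v : ENNReal, v = c * (ENNReal.ofReal (2 ^ m) *
        (Measure.addHaar : Measure K) (Metric.ball (N p₀) R')) := ⟨_, rfl⟩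
  rw [← hv] at key
  have hfin : v ≠ ⊤ := by
    have h1 := key 1 one_pos
    rw [one_pow, ENNReal.ofReal_one, one_mul] at h1
    rw [← h1]
    refine (lt_of_le_of_lt (measure_mono (t := Metric.ball 0 (‖g‖ + ‖(N p₀ : E d)‖ + R' + 1)) ?_)
      measure_ball_lt_top).ne
    rintro x ⟨hx1, hx2⟩
    have a1 : ‖L x‖ < 1 := by
      have := mem_ball_zero_iff.1 hx1
      exact this
    have a2 : ‖(x - g (L x)) - (N p₀ : E d)‖ < R' := by
      have := Metric.mem_ball.1 hx2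
      rw [Subtype.dist_eq, dist_eq_norm] at this
      exact this
    rw [mem_ball_zero_iff]
    have e1 : x = g (L x) + ((x - g (L x)) - (N p₀ : E d)) + (N p₀ : E d) := by abel
    have e2 : ‖x‖ ≤ ‖g (L x)‖ + ‖(x - g (L x)) - (N p₀ : E d)‖ + ‖(N p₀ : E d)‖ := by
      conv_lhs => rw [e1]
      exact norm_add₃_le
    have e3 : ‖g (L x)‖ ≤ ‖g‖ := by
      refine (g.le_opNorm _).trans ?_
      calc ‖g‖ * ‖L x‖ ≤ ‖g‖ * 1 := mul_le_mul_of_nonneg_left a1.le (norm_nonneg _)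
        _ = ‖g‖ := mul_one _
    linarith
  refine ⟨v.toReal, ENNReal.toReal_nonneg, fun δ hδ => ?_⟩
  rw [mul_comm, ENNReal.ofReal_mul (by positivity), ENNReal.ofReal_toReal hfin, ← key δ hδ]
  refine measure_mono ?_
  rintro x ⟨hx1, hx2⟩
  refine ⟨?_, ?_⟩
  · rw [mem_ball_zero_iff]
    exact hx2
  · rw [Metric.mem_ball, dist_eq_norm] at hx1
    rw [Metric.mem_ball, Subtype.dist_eq, dist_eq_norm]
    change ‖(x - g (L x)) - (p₀ - g (L p₀))‖ < R'
    have e1 : (x - g (L x)) - (p₀ - g (L p₀)) = (x - p₀) - g (L (x - p₀)) := by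
      rw [map_sub, map_sub]
      abel
    rw [e1]
    have e2 := norm_sub_le (x - p₀) (g (L (x - p₀)))
    have e3 : ‖g (L (x - p₀))‖ ≤ ‖g‖ * ‖L‖ * ‖x - p₀‖ := by
      refine (g.le_opNorm _).trans ?_
      rw [mul_assoc]
      exact mul_le_mul_of_nonneg_left (L.le_opNorm _) (norm_nonneg _)
    have e4 : ‖g‖ * ‖L‖ * ‖x - p₀‖ ≤ ‖g‖ * ‖L‖ * R :=
      mul_le_mul_of_nonneg_left hx1.le (by positivity)
    rw [hR']
    linarith

/-- averaging a bound of the areas of the squares parallel to a subspace -/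
theorem thin {d m : ℕ} (hm : 0 < m) {Φ : E d → Al d 2} (hΦ : StronglyMeasurable Φ)
    {L : E d →L[ℝ] (Fin m → ℝ)} (hL : Function.Surjective L) {e f : E d} (hLe : L e = 0)
    (hLf : L f = 0) {p₀ : E d} (hp₀ : L p₀ = 0) {r : ℝ} (hr : 0 < r) {B : ℝ} (hB : 0 ≤ B)
    (hG : ∀ y ∈ Metric.ball p₀ r, L y ≠ 0 →
      ∫⁻ z in SE.sq, ‖Φ (y + z 0 • e + z 1 • f)‖ₑ ≤ ENNReal.ofReal B) :
    ∃ C : ℝ, 0 ≤ C ∧ ∀ δ : ℝ, 0 < δ →
      ∫⁻ p in Metric.ball p₀ (r / 2) ∩ {x | ‖L x‖ < δ}, ‖Φ p‖ₑ ≤ ENNReal.ofReal (C * δ ^ m) := by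
  obtain ⟨C₀, hC₀, hvol⟩ := vol_thin L hL p₀ r hp₀
  obtain ⟨τ, hτ⟩ : ∃ τ : ℝ, τ = min 1 (r / (2 * (‖e‖ + ‖f‖ + 1))) := ⟨_, rfl⟩
  have hden : 0 < ‖e‖ + ‖f‖ + 1 := by positivity
  have hτ0 : 0 < τ := by rw [hτ]; exact lt_min one_pos (by positivity)
  have hτ1 : τ ≤ 1 := by rw [hτ]; exact min_le_left _ _
  have hτ2 : τ * (‖e‖ + ‖f‖) ≤ r / 2 := by
    have h1 : τ ≤ r / (2 * (‖e‖ + ‖f‖ + 1)) := by rw [hτ]; exact min_le_right _ _
    rw [le_div_iff₀ (by positivity)] at h1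
    nlinarith
  refine ⟨B * C₀ / (2 * τ) ^ 2, by positivity, fun δ hδ => ?_⟩
  have hmeas : Measurable (fun q : E d × (Fin 2 → ℝ) => ‖Φ (q.1 + q.2 0 • e + q.2 1 • f)‖ₑ) := by
    have h1 : Measurable (fun q : E d × (Fin 2 → ℝ) => q.1 + q.2 0 • e + q.2 1 • f) := by
      have : Continuous (fun q : E d × (Fin 2 → ℝ) => q.1 + q.2 0 • e + q.2 1 • f) := by
        fun_prop
      exact this.measurable
    exact (hΦ.comp_measurable h1).enorm
  obtain ⟨S, hS⟩ : ∃ S : ℝ → Set (E d), S = fun ρ => Metric.ball p₀ ρ ∩ {x | ‖L x‖ < δ} :=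
    ⟨_, rfl⟩
  have hSm : ∀ ρ, MeasurableSet (S ρ) := fun ρ => by
    rw [hS]
    exact (Metric.isOpen_ball.inter (isOpen_lt L.continuous.norm continuous_const)).measurableSet
  have hnull : ∀ᵐ y : E d, L y ≠ 0 := by
    have h1 : ∀ᵐ w : Fin m → ℝ, w ∈ ({0}ᶜ : Set (Fin m → ℝ)) := by
      have : Nonempty (Fin m) := ⟨⟨0, hm⟩⟩
      have h2 : volume ({0} : Set (Fin m → ℝ)) = 0 := measure_singleton _
      exact compl_mem_ae_iff.2 h2
    exact (ae_comp_linearMap_mem_iff (L := (L : E d →ₗ[ℝ] (Fin m → ℝ))) volume volume hL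
      (measurableSet_singleton _).compl).2 h1
  have hupper : ∫⁻ y in S r, ∫⁻ z in SE.sq, ‖Φ (y + z 0 • e + z 1 • f)‖ₑ ≤
      ENNReal.ofReal B * ENNReal.ofReal (C₀ * δ ^ m) := by
    have h1 : ∫⁻ y in S r, ∫⁻ z in SE.sq, ‖Φ (y + z 0 • e + z 1 • f)‖ₑ ≤
        ∫⁻ _ in S r, ENNReal.ofReal B := by
      refine setLIntegral_mono_ae aemeasurable_const ?_
      filter_upwards [hnull] with y hy hyb
      refine hG y ?_ hy
      rw [hS] at hyb
      exact hyb.1
    refine h1.trans ?_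
    rw [setLIntegral_const]
    refine mul_le_mul_right ?_ _
    rw [hS]
    exact hvol δ hδ
  have hlower : ENNReal.ofReal ((2 * τ) ^ 2) * ∫⁻ p in S (r / 2), ‖Φ p‖ₑ ≤
      ∫⁻ y in S r, ∫⁻ z in SE.sq, ‖Φ (y + z 0 • e + z 1 • f)‖ₑ := by
    rw [lintegral_lintegral_swap hmeas.aemeasurable]
    have hsq : Icc (fun _ : Fin 2 => -τ) (fun _ => τ) ⊆ SE.sq := by
      intro z hz
      exact ⟨fun i => le_trans (by linarith) (hz.1 i), fun i => (hz.2 i).trans hτ1⟩
    have hvol : volume (Icc (fun _ : Fin 2 => -τ) (fun _ => τ)) = ENNReal.ofReal ((2 * τ) ^ 2) := by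
      rw [Real.volume_Icc_pi, Fin.prod_univ_two, ← ENNReal.ofReal_mul (by linarith)]
      congr 1
      ring
    rw [← hvol, mul_comm, ← setLIntegral_const]
    refine le_trans ?_ (lintegral_mono_set hsq)
    refine setLIntegral_mono' measurableSet_Icc fun z hz => ?_
    obtain ⟨w, hw⟩ : ∃ w : E d, w = z 0 • e + z 1 • f := ⟨_, rfl⟩
    have hLw : L w = 0 := by rw [hw, map_add, map_smul, map_smul, hLe, hLf, smul_zero, smul_zero,
      add_zero]
    have hz0 : |z 0| ≤ τ := abs_le.2 ⟨hz.1 0, hz.2 0⟩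
    have hz1 : |z 1| ≤ τ := abs_le.2 ⟨hz.1 1, hz.2 1⟩
    have hwn : ‖w‖ ≤ r / 2 := by
      have h1 := norm_add_le (z 0 • e) (z 1 • f)
      rw [norm_smul, norm_smul, Real.norm_eq_abs, Real.norm_eq_abs] at h1
      have h2 : |z 0| * ‖e‖ ≤ τ * ‖e‖ := mul_le_mul_of_nonneg_right hz0 (norm_nonneg _)
      have h3 : |z 1| * ‖f‖ ≤ τ * ‖f‖ := mul_le_mul_of_nonneg_right hz1 (norm_nonneg _)
      have h4 : τ * ‖e‖ + τ * ‖f‖ = τ * (‖e‖ + ‖f‖) := by ring
      rw [hw]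
      linarith
    have hshift : ∀ y, y ∈ S (r / 2) → y - w ∈ S r := by
      intro y hy
      rw [hS] at hy ⊢
      refine ⟨?_, ?_⟩
      · have h1 := hy.1
        rw [Metric.mem_ball, dist_eq_norm] at h1 ⊢
        have h2 : y - w - p₀ = (y - p₀) - w := by abel
        rw [h2]
        have h3 := norm_sub_le (y - p₀) w
        linarith
      · rw [mem_ofPred_eq, map_sub, hLw, sub_zero]
        exact hy.2
    have h1 : ∫⁻ y in S r, ‖Φ (y + z 0 • e + z 1 • f)‖ₑ =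
        ∫⁻ y, (S r).indicator (fun _ => 1) (y - w) * ‖Φ y‖ₑ := by
      rw [← lintegral_indicator (hSm r)]
      have h2 := lintegral_add_right_eq_self (μ := (volume : Measure (E d)))
        (fun y => (S r).indicator (fun _ => (1 : ENNReal)) (y - w) * ‖Φ y‖ₑ) w
      rw [← h2]
      congr 1
      funext y
      have h3 : y + z 0 • e + z 1 • f = y + w := by rw [hw, add_assoc]
      rw [add_sub_cancel_right]
      by_cases hy : y ∈ S r
      · rw [indicator_of_mem hy, indicator_of_mem hy, one_mul, h3]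
      · rw [indicator_of_notMem hy, indicator_of_notMem hy, zero_mul]
    rw [h1, ← lintegral_indicator (hSm (r / 2))]
    refine lintegral_mono fun y => ?_
    by_cases hy : y ∈ S (r / 2)
    · rw [indicator_of_mem hy, indicator_of_mem (hshift y hy), one_mul]
    · rw [indicator_of_notMem hy]
      exact zero_le
  have h1 := hlower.trans hupper
  have h2 : 0 < (2 * τ) ^ 2 := by positivity
  have h3 : ∫⁻ p in S (r / 2), ‖Φ p‖ₑ ≤
      (ENNReal.ofReal B * ENNReal.ofReal (C₀ * δ ^ m)) / ENNReal.ofReal ((2 * τ) ^ 2) := by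
    rw [ENNReal.le_div_iff_mul_le (Or.inl (ENNReal.ofReal_pos.2 h2).ne')
      (Or.inl ENNReal.ofReal_ne_top), mul_comm]
    exact h1
  rw [hS] at h3
  refine h3.trans (le_of_eq ?_)
  rw [← ENNReal.ofReal_mul hB, ← ENNReal.ofReal_div_of_pos h2]
  congr 1
  field_simp

end Pool.Agent.U896.SF
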